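import Pool.Agent.Y577.EV.Stm

set_option autoImplicit false

/-! The window of relations (statement `S_window`). -/

namespace Pool.Agent.Y577.EV.Win

open Finset

section

variable {A : Type} [CommRing A] [CharP A 2] (x : A)

/-- combinations of the monomials of weight `n` -/
def W (n : ℕ) : AddSubgroup A := AddSubgroup.closure
  {y | ∃ s a b : ℕ, s + 8 * a + 32 * b = n ∧
    y = x ^ s * (x ^ 2 + x ^ 4 + x ^ 8) ^ a * (x ^ 2 + x ^ 16 + x ^ 32) ^ b}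

/-- `x ^ e G` has weight `n` -/
def In (n e : ℕ) : Prop := x ^ e * (1 + x ^ 8 + x ^ 12 + x ^ 16) ∈ W x n

variable {x}

theorem W_mul {m n : ℕ} {y : A} (c : A) (hy : y ∈ W x n)
    (hc : ∀ s a b : ℕ, s + 8 * a + 32 * b = n →
      c * (x ^ s * (x ^ 2 + x ^ 4 + x ^ 8) ^ a * (x ^ 2 + x ^ 16 + x ^ 32) ^ b) ∈ W x m) :
    c * y ∈ W x m := by
  unfold W at hy
  induction hy using AddSubgroup.closure_induction with
  | mem y hy =>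
    obtain ⟨s, a, b, h, rfl⟩ := hy
    exact hc s a b h
  | zero => rw [mul_zero]; exact AddSubgroup.zero_mem _
  | add y z _ _ hy hz => rw [mul_add]; exact AddSubgroup.add_mem _ hy hz
  | neg y _ hy => rw [mul_neg]; exact AddSubgroup.neg_mem _ hy

theorem W_x {n : ℕ} {y : A} (t : ℕ) (hy : y ∈ W x n) : x ^ t * y ∈ W x (n + t) :=
  W_mul (x ^ t) hy fun s a b h => AddSubgroup.subset_closure
    ⟨s + t, a, b, by omega, by rw [pow_add]; ring⟩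

theorem W_z {n : ℕ} {y : A} (hy : y ∈ W x n) : (x ^ 2 + x ^ 4 + x ^ 8) * y ∈ W x (n + 8) :=
  W_mul _ hy fun s a b h => AddSubgroup.subset_closure
    ⟨s, a + 1, b, by omega, by rw [pow_succ _ a]; ring⟩

theorem W_w {n : ℕ} {y : A} (hy : y ∈ W x n) : (x ^ 2 + x ^ 16 + x ^ 32) * y ∈ W x (n + 32) :=
  W_mul _ hy fun s a b h => AddSubgroup.subset_closure
    ⟨s, a, b + 1, by omega, by rw [pow_succ _ b]; ring⟩

theorem W_mono (s a b n : ℕ) (h : s + 8 * a + 32 * b = n) :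
    x ^ s * (x ^ 2 + x ^ 4 + x ^ 8) ^ a * (x ^ 2 + x ^ 16 + x ^ 32) ^ b ∈ W x n :=
  AddSubgroup.subset_closure ⟨s, a, b, h, rfl⟩

theorem in_shift {n e : ℕ} (t : ℕ) (h : In x n e) : In x (n + t) (e + t) := by
  unfold In at *
  have := W_x t h
  have e1 : x ^ (e + t) * (1 + x ^ 8 + x ^ 12 + x ^ 16) =
      x ^ t * (x ^ e * (1 + x ^ 8 + x ^ 12 + x ^ 16)) := by rw [pow_add]; ring
  rw [e1]
  exact this

theorem in_z {n e : ℕ} (h : In x n e) (h' : In x (n + 8) (e + 4)) : In x (n + 8) (e + 2) := by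
  have h2 : (2 : A) = 0 := CharTwo.two_eq_zero
  have h8 := in_shift 8 h
  unfold In at *
  have hz := W_z h
  have e1 : x ^ (e + 2) * (1 + x ^ 8 + x ^ 12 + x ^ 16) =
      (x ^ 2 + x ^ 4 + x ^ 8) * (x ^ e * (1 + x ^ 8 + x ^ 12 + x ^ 16)) -
        x ^ (e + 4) * (1 + x ^ 8 + x ^ 12 + x ^ 16) -
        x ^ (e + 8) * (1 + x ^ 8 + x ^ 12 + x ^ 16) := by
    rw [pow_add, pow_add, pow_add]; ring
  rw [e1]
  exact AddSubgroup.sub_mem _ (AddSubgroup.sub_mem _ hz h') h8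

theorem in_w {n e : ℕ} (h : In x n e) (h' : In x (n + 32) (e + 16)) :
    In x (n + 32) (e + 2) := by
  have h8 := in_shift 32 h
  unfold In at *
  have hz := W_w h
  have e1 : x ^ (e + 2) * (1 + x ^ 8 + x ^ 12 + x ^ 16) =
      (x ^ 2 + x ^ 16 + x ^ 32) * (x ^ e * (1 + x ^ 8 + x ^ 12 + x ^ 16)) -
        x ^ (e + 16) * (1 + x ^ 8 + x ^ 12 + x ^ 16) -
        x ^ (e + 32) * (1 + x ^ 8 + x ^ 12 + x ^ 16) := by
    rw [pow_add, pow_add, pow_add]; ring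
  rw [e1]
  exact AddSubgroup.sub_mem _ (AddSubgroup.sub_mem _ hz h') h8

theorem z2 : (x ^ 2 + x ^ 4 + x ^ 8) ^ 2 = x ^ 4 + x ^ 8 + x ^ 16 := by
  rw [CharTwo.add_sq, CharTwo.add_sq]; ring

theorem z4 : (x ^ 2 + x ^ 4 + x ^ 8) ^ 4 = x ^ 8 + x ^ 16 + x ^ 32 := by
  have : (x ^ 2 + x ^ 4 + x ^ 8) ^ 4 = ((x ^ 2 + x ^ 4 + x ^ 8) ^ 2) ^ 2 := by ring
  rw [this, z2, CharTwo.add_sq, CharTwo.add_sq]; ring

theorem z8 : (x ^ 2 + x ^ 4 + x ^ 8) ^ 8 = x ^ 16 + x ^ 32 + x ^ 64 := by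
  have : (x ^ 2 + x ^ 4 + x ^ 8) ^ 8 = ((x ^ 2 + x ^ 4 + x ^ 8) ^ 4) ^ 2 := by ring
  rw [this, z4, CharTwo.add_sq, CharTwo.add_sq]; ring

theorem w2 : (x ^ 2 + x ^ 16 + x ^ 32) ^ 2 = x ^ 4 + x ^ 32 + x ^ 64 := by
  rw [CharTwo.add_sq, CharTwo.add_sq]; ring

theorem c64 : In x 64 10 := by
  have h2 : (2 : A) = 0 := CharTwo.two_eq_zero
  have m : ∀ s a b : ℕ, s + 8 * a + 32 * b = 64 →
    x ^ s * (x ^ 2 + x ^ 4 + x ^ 8) ^ a * (x ^ 2 + x ^ 16 + x ^ 32) ^ b ∈ W x 64 :=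
    fun s a b h => W_mono s a b 64 h
  unfold In
  have e1 : x ^ 10 * (1 + x ^ 8 + x ^ 12 + x ^ 16) =
      x ^ 56 * (x ^ 2 + x ^ 4 + x ^ 8) ^ 1 * (x ^ 2 + x ^ 16 + x ^ 32) ^ 0 +
      x ^ 48 * (x ^ 2 + x ^ 4 + x ^ 8) ^ 2 * (x ^ 2 + x ^ 16 + x ^ 32) ^ 0 +
      x ^ 40 * (x ^ 2 + x ^ 4 + x ^ 8) ^ 3 * (x ^ 2 + x ^ 16 + x ^ 32) ^ 0 +
      x ^ 32 * (x ^ 2 + x ^ 4 + x ^ 8) ^ 4 * (x ^ 2 + x ^ 16 + x ^ 32) ^ 0 +
      x ^ 16 * (x ^ 2 + x ^ 4 + x ^ 8) ^ 6 * (x ^ 2 + x ^ 16 + x ^ 32) ^ 0 +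
      x ^ 8 * (x ^ 2 + x ^ 4 + x ^ 8) ^ 7 * (x ^ 2 + x ^ 16 + x ^ 32) ^ 0 +
      x ^ 24 * (x ^ 2 + x ^ 4 + x ^ 8) ^ 1 * (x ^ 2 + x ^ 16 + x ^ 32) ^ 1 +
      x ^ 0 * (x ^ 2 + x ^ 4 + x ^ 8) ^ 4 * (x ^ 2 + x ^ 16 + x ^ 32) ^ 1 := by
    have z3 : (x ^ 2 + x ^ 4 + x ^ 8) ^ 3 = (x ^ 2 + x ^ 4 + x ^ 8) * (x ^ 4 + x ^ 8 + x ^ 16) := by
      rw [← z2]; ring
    have z6 : (x ^ 2 + x ^ 4 + x ^ 8) ^ 6 = (x ^ 4 + x ^ 8 + x ^ 16) * (x ^ 8 + x ^ 16 + x ^ 32) := by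
      rw [← z2, ← z4]; ring
    have z7 : (x ^ 2 + x ^ 4 + x ^ 8) ^ 7 = (x ^ 2 + x ^ 4 + x ^ 8) *
        ((x ^ 4 + x ^ 8 + x ^ 16) * (x ^ 8 + x ^ 16 + x ^ 32)) := by
      rw [← z6]; ring
    rw [z2, z3, z4, z6, z7, pow_one, pow_one, pow_zero, pow_zero]
    linear_combination ((-1)*x^24 + (-2)*x^28 + (-1)*x^30 + (-2)*x^32 + (-2)*x^34 + (-2)*x^36 + (-3)*x^40 + (-1)*x^42 + (-1)*x^44 + (-1)*x^46 + (-4)*x^48 + (-1)*x^50 + (-3)*x^52 + (-2)*x^56 + (-2)*x^58 + (-2)*x^60 + (-4)*x^64) * h2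
  rw [e1]
  refine AddSubgroup.add_mem _ (AddSubgroup.add_mem _ (AddSubgroup.add_mem _ (AddSubgroup.add_mem _
    (AddSubgroup.add_mem _ (AddSubgroup.add_mem _ (AddSubgroup.add_mem _ ?_ ?_) ?_) ?_) ?_) ?_) ?_) ?_
  all_goals exact m _ _ _ (by norm_num)

theorem c72 : In x 72 20 := by
  have h2 : (2 : A) = 0 := CharTwo.two_eq_zero
  have m : ∀ s a b : ℕ, s + 8 * a + 32 * b = 72 →
    x ^ s * (x ^ 2 + x ^ 4 + x ^ 8) ^ a * (x ^ 2 + x ^ 16 + x ^ 32) ^ b ∈ W x 72 :=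
    fun s a b h => W_mono s a b 72 h
  unfold In
  have e1 : x ^ 20 * (1 + x ^ 8 + x ^ 12 + x ^ 16) =
      x ^ 56 * (x ^ 2 + x ^ 4 + x ^ 8) ^ 2 * (x ^ 2 + x ^ 16 + x ^ 32) ^ 0 +
      x ^ 48 * (x ^ 2 + x ^ 4 + x ^ 8) ^ 3 * (x ^ 2 + x ^ 16 + x ^ 32) ^ 0 +
      x ^ 40 * (x ^ 2 + x ^ 4 + x ^ 8) ^ 4 * (x ^ 2 + x ^ 16 + x ^ 32) ^ 0 +
      x ^ 32 * (x ^ 2 + x ^ 4 + x ^ 8) ^ 5 * (x ^ 2 + x ^ 16 + x ^ 32) ^ 0 +
      x ^ 24 * (x ^ 2 + x ^ 4 + x ^ 8) ^ 6 * (x ^ 2 + x ^ 16 + x ^ 32) ^ 0 +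
      x ^ 0 * (x ^ 2 + x ^ 4 + x ^ 8) ^ 9 * (x ^ 2 + x ^ 16 + x ^ 32) ^ 0 +
      x ^ 16 * (x ^ 2 + x ^ 4 + x ^ 8) ^ 3 * (x ^ 2 + x ^ 16 + x ^ 32) ^ 1 +
      x ^ 8 * (x ^ 2 + x ^ 4 + x ^ 8) ^ 4 * (x ^ 2 + x ^ 16 + x ^ 32) ^ 1 := by
    have z3 : (x ^ 2 + x ^ 4 + x ^ 8) ^ 3 = (x ^ 2 + x ^ 4 + x ^ 8) * (x ^ 4 + x ^ 8 + x ^ 16) := by
      rw [← z2]; ring
    have z5 : (x ^ 2 + x ^ 4 + x ^ 8) ^ 5 = (x ^ 2 + x ^ 4 + x ^ 8) * (x ^ 8 + x ^ 16 + x ^ 32) := by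
      rw [← z4]; ring
    have z6 : (x ^ 2 + x ^ 4 + x ^ 8) ^ 6 = (x ^ 4 + x ^ 8 + x ^ 16) * (x ^ 8 + x ^ 16 + x ^ 32) := by
      rw [← z2, ← z4]; ring
    have z9 : (x ^ 2 + x ^ 4 + x ^ 8) ^ 9 = (x ^ 2 + x ^ 4 + x ^ 8) *
        (x ^ 16 + x ^ 32 + x ^ 64) := by
      rw [← z8]; ring
    rw [z2, z3, z4, z5, z6, z9, pow_one, pow_zero, pow_zero]
    linear_combination ((-1)*x^18 + (-1)*x^24 + (-1)*x^26 + (-1)*x^30 + (-1)*x^34 + (-1)*x^36 + (-1)*x^38 + (-2)*x^40 + (-2)*x^42 + (-2)*x^44 + (-3)*x^48 + (-1)*x^50 + (-1)*x^52 + (-1)*x^54 + (-4)*x^56 + (-1)*x^58 + (-3)*x^60 + (-2)*x^64 + (-2)*x^66 + (-2)*x^68 + (-4)*x^72) * h2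
  rw [e1]
  refine AddSubgroup.add_mem _ (AddSubgroup.add_mem _ (AddSubgroup.add_mem _ (AddSubgroup.add_mem _
    (AddSubgroup.add_mem _ (AddSubgroup.add_mem _ (AddSubgroup.add_mem _ ?_ ?_) ?_) ?_) ?_) ?_) ?_) ?_
  all_goals exact m _ _ _ (by norm_num)

theorem c80 : In x 80 24 := by
  have h2 : (2 : A) = 0 := CharTwo.two_eq_zero
  have m : ∀ s a b : ℕ, s + 8 * a + 32 * b = 80 →
    x ^ s * (x ^ 2 + x ^ 4 + x ^ 8) ^ a * (x ^ 2 + x ^ 16 + x ^ 32) ^ b ∈ W x 80 :=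
    fun s a b h => W_mono s a b 80 h
  unfold In
  have e1 : x ^ 24 * (1 + x ^ 8 + x ^ 12 + x ^ 16) =
      x ^ 80 * (x ^ 2 + x ^ 4 + x ^ 8) ^ 0 * (x ^ 2 + x ^ 16 + x ^ 32) ^ 0 +
      x ^ 64 * (x ^ 2 + x ^ 4 + x ^ 8) ^ 2 * (x ^ 2 + x ^ 16 + x ^ 32) ^ 0 +
      x ^ 0 * (x ^ 2 + x ^ 4 + x ^ 8) ^ 10 * (x ^ 2 + x ^ 16 + x ^ 32) ^ 0 +
      x ^ 16 * (x ^ 2 + x ^ 4 + x ^ 8) ^ 0 * (x ^ 2 + x ^ 16 + x ^ 32) ^ 2 := by
    have z10 : (x ^ 2 + x ^ 4 + x ^ 8) ^ 10 = (x ^ 4 + x ^ 8 + x ^ 16) *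
        (x ^ 16 + x ^ 32 + x ^ 64) := by
      rw [← z8, ← z2]; ring
    rw [z2, z10, w2, pow_zero, pow_zero, pow_zero]
    linear_combination ((-1)*x^20 + (-1)*x^48 + (-1)*x^68 + (-1)*x^72 + (-2)*x^80) * h2
  rw [e1]
  refine AddSubgroup.add_mem _ (AddSubgroup.add_mem _ (AddSubgroup.add_mem _ ?_ ?_) ?_) ?_
  all_goals exact m _ _ _ (by norm_num)

/-- all `x ^ e G` with `e = F - 52 - 2 j`, `j ≤ J`, have weight `F` -/
def Q (x : A) (F J : ℕ) : Prop := ∀ j e : ℕ, j ≤ J → e + 52 + 2 * j = F → In x F e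

theorem Q_z {F J : ℕ} (h : Q x F J) (hJ : 2 ≤ J) (hF : 52 + 2 * J ≤ F) : Q x (F + 8) (J + 3) := by
  intro j
  induction j with
  | zero =>
    intro e _ he
    have := in_shift 8 (h 0 (e - 8) (by omega) (by omega))
    rwa [Nat.sub_add_cancel (by omega)] at this
  | succ j ih =>
    intro e hj he
    by_cases h1 : j + 1 ≤ J
    · have := in_shift 8 (h (j + 1) (e - 8) h1 (by omega))
      rwa [Nat.sub_add_cancel (by omega)] at this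
    · obtain ⟨i, rfl⟩ : ∃ i, j = i + 2 := ⟨j - 2, by omega⟩
      obtain ⟨e', rfl⟩ : ∃ e', e = e' + 2 := ⟨e - 2, by omega⟩
      exact in_z (h i e' (by omega) (by omega)) (ih (e' + 4) (by omega) (by omega))

theorem Q_w {F J : ℕ} (h : Q x F J) (hJ : 14 ≤ J) (hF : 52 + 2 * J ≤ F) :
    Q x (F + 32) (J + 15) := by
  intro j
  induction j using Nat.strong_induction_on with
  | _ j ih =>
    intro e hj he
    by_cases h1 : j ≤ J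
    · have := in_shift 32 (h j (e - 32) h1 (by omega))
      rwa [Nat.sub_add_cancel (by omega)] at this
    · obtain ⟨i, rfl⟩ : ∃ i, j = i + 15 := ⟨j - 15, by omega⟩
      obtain ⟨e', rfl⟩ : ∃ e', e = e' + 2 := ⟨e - 2, by omega⟩
      exact in_w (h i e' (by omega) (by omega)) (ih (i + 8) (by omega) (e' + 16) (by omega) (by omega))

theorem Q80 : Q x 80 4 := by
  have a0 : In x 80 28 := in_shift 8 c72
  have a1 : In x 80 26 := in_shift 16 c64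
  have a2 : In x 80 24 := c80
  have a3 : In x 80 22 := in_z c72 a2
  have a4 : In x 80 20 := in_z (in_shift 8 c64) a3
  intro j e hj he
  have hj' : j = 0 ∨ j = 1 ∨ j = 2 ∨ j = 3 ∨ j = 4 := by omega
  rcases hj' with rfl | rfl | rfl | rfl | rfl
  · obtain rfl : e = 28 := by omega
    exact a0
  · obtain rfl : e = 26 := by omega
    exact a1
  · obtain rfl : e = 24 := by omega
    exact a2
  · obtain rfl : e = 22 := by omega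
    exact a3
  · obtain rfl : e = 20 := by omega
    exact a4

theorem Q112 : Q x 112 14 := by
  have h := Q_z (Q_z (Q_z (Q_z (x := x) Q80 (by norm_num) (by norm_num)) (by norm_num)
    (by norm_num)) (by norm_num) (by norm_num)) (by norm_num) (by norm_num)
  intro j e hj he
  exact h j e (by omega) he

theorem Qk (k : ℕ) : Q x (112 + 32 * k) (14 + 15 * k) := by
  induction k with
  | zero => exact Q112
  | succ k ih =>
    have h := Q_w ih (by omega) (by omega)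
    intro j e hj he
    have := h j e (by omega) (by omega)
    exact this

end

theorem t : Pool.Agent.Y577.EV.S_window := by
  intro A _ _ x f n hf k t e hn h1 h2 h3
  have h4 : In x n e := by
    have h5 : In x (112 + 32 * k) (e - t) := by
      obtain ⟨j, hj⟩ : ∃ j, (e - t) + 52 + 2 * j = 112 + 32 * k := by
        have h6 : e % 2 = n % 2 := h3
        refine ⟨(60 + 32 * k - (e - t)) / 2, ?_⟩
        omega
      exact Qk k j _ (by omega) hj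
    have h6 := in_shift t h5
    rw [Nat.sub_add_cancel (by omega), ← hn] at h6
    exact h6
  have key : ∀ y ∈ W x n, f y = 0 := by
    intro y hy
    unfold W at hy
    induction hy using AddSubgroup.closure_induction with
    | mem y hy =>
      obtain ⟨s, a, b, h, rfl⟩ := hy
      exact hf s a b h
    | zero => exact map_zero f
    | add y z _ _ hy hz => rw [map_add, hy, hz, add_zero]
    | neg y _ hy => rw [map_neg, hy, neg_zero]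
  have h5 := key _ h4
  have h6 : x ^ e * (1 + x ^ 8 + x ^ 12 + x ^ 16) =
      x ^ e + x ^ (e + 8) + x ^ (e + 12) + x ^ (e + 16) := by
    rw [pow_add, pow_add, pow_add]; ring
  rw [h6, map_add, map_add, map_add] at h5
  exact h5

end Pool.Agent.Y577.EV.Win
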