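import Pool.Agent.Y577.EV.Dval
import Pool.Agent.Y577.EV.Win
import Pool.Agent.H98R2.Ev.T15

set_option autoImplicit false
set_option linter.unusedSectionVars false

/-! The contradiction for a property that is not evasive. -/

namespace Pool.Agent.Y577.EV

open Finset Pool.Agent.H98R2.Ev Pool.Agent.TH410.KV

theorem X3 {A : Type} [CommRing A] [CharP A 2] {X : ℕ → A}
    (hX : ∀ j, X j ^ 2 = X j + X (j + 1)) :
    X 0 - X 3 = X 0 ^ 2 + X 0 ^ 4 + X 0 ^ 8 ∧ X 0 - X 5 = X 0 ^ 2 + X 0 ^ 16 + X 0 ^ 32 := by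
  have h2 : (2 : A) = 0 := CharTwo.two_eq_zero
  have hs : ∀ j, X (j + 1) = X j + X j ^ 2 := by
    intro j
    rw [hX]
    linear_combination (-X j) * h2
  have e1 : X 1 = X 0 + X 0 ^ 2 := hs 0
  have e2 : X 2 = X 0 + X 0 ^ 4 := by
    rw [hs 1, e1, CharTwo.add_sq]
    linear_combination (X 0 ^ 2) * h2
  have e3 : X 3 = X 0 + X 0 ^ 2 + X 0 ^ 4 + X 0 ^ 8 := by
    rw [hs 2, e2, CharTwo.add_sq]
    ring
  have e4 : X 4 = X 0 + X 0 ^ 16 := by
    rw [hs 3, e3, CharTwo.add_sq, CharTwo.add_sq, CharTwo.add_sq]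
    linear_combination (X 0 ^ 2 + X 0 ^ 4 + X 0 ^ 8) * h2
  have e5 : X 5 = X 0 + X 0 ^ 2 + X 0 ^ 16 + X 0 ^ 32 := by
    rw [hs 4, e4, CharTwo.add_sq]
    ring
  constructor
  · rw [e3]
    linear_combination (-(X 0 ^ 2 + X 0 ^ 4 + X 0 ^ 8)) * h2
  · rw [e5]
    linear_combination (-(X 0 ^ 2 + X 0 ^ 16 + X 0 ^ 32)) * h2

variable {𝓕 : Fam}

theorem HH.mono {V W : Type} {G : SimpleGraph V} {H : SimpleGraph W} (h : HH 𝓕 G)
    (φ : G →g H) : HH 𝓕 H := by
  obtain ⟨F, hF, ⟨ψ⟩⟩ := h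
  exact ⟨F, hF, ⟨φ.comp ψ⟩⟩

theorem ne_transport {V W : Type} [Fintype V] [DecidableEq V] [Fintype W] [DecidableEq W]
    (E : V ≃ W) (h : NE (univ : Finset (EV V)) (fun S => ¬ HH 𝓕 (toG S))) :
    NE (univ : Finset (EV W)) (fun S => ¬ HH 𝓕 (toG S)) := by
  have hNE2 := ne_map15 (ev15 E) _ _ h
  rw [Finset.map_univ_equiv] at hNE2
  have h1 : (fun S : Finset (EV W) => ¬ HH 𝓕 (toG S)) =
      (fun S => ¬ HH 𝓕 (toG (S.map (ev15 E).symm.toEmbedding))) := by
    funext S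
    have h1 : toG (S.map (ev15 E).symm.toEmbedding) = (toG S).map E.symm.toEmbedding :=
      toG_map15 E.symm S
    rw [h1]
    apply propext
    rw [not_iff_not]
    exact ⟨fun h => h.mono (SimpleGraph.Iso.map E.symm (toG S)).toHom,
      fun h => h.mono (SimpleGraph.Iso.map E.symm (toG S)).symm.toHom⟩
  rw [h1]
  exact hNE2

/-- the exponents of the blocks -/
def cc (s a b : ℕ) : Fin s ⊕ (Fin a ⊕ Fin b) → ℕ :=
  Sum.elim (fun _ => 0) (Sum.elim (fun _ => 3) (fun _ => 5))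

theorem zz_zero : zz 𝓕 0 = Xc 𝓕 0 := by
  unfold zz
  rw [if_pos rfl]
  rfl

theorem zz_pos {c : ℕ} (h : c ≠ 0) : zz 𝓕 c = Xc 𝓕 0 - Xc 𝓕 c := by
  unfold zz
  rw [if_neg h]
  rfl

theorem relations (hcrit : S_crit) (hcount : S_count) {n : ℕ}
    (h1 : ∀ F ∈ 𝓕, ¬ F.2.Colorable 1) [CharP (AA 𝓕 2) 2]
    (hNE : NE (univ : Finset (EV (Fin n))) (fun S => ¬ HH 𝓕 (toG S))) (s a b : ℕ)
    (hn : s + 8 * a + 32 * b = n) :
    fL 𝓕 (Xc 𝓕 0 ^ s * (Xc 𝓕 0 ^ 2 + Xc 𝓕 0 ^ 4 + Xc 𝓕 0 ^ 8) ^ a *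
      (Xc 𝓕 0 ^ 2 + Xc 𝓕 0 ^ 16 + Xc 𝓕 0 ^ 32) ^ b) = 0 := by
  classical
  have hcard : Fintype.card (Fin n) =
      Fintype.card (Σ i : Fin s ⊕ (Fin a ⊕ Fin b), (Fin (cc s a b i) → ZMod 2)) := by
    rw [Fintype.card_fin, Fintype.card_sigma]
    have h2 : ∀ i, Fintype.card (Fin (cc s a b i) → ZMod 2) = 2 ^ cc s a b i := fun i => by
      rw [Fintype.card_fun, ZMod.card, Fintype.card_fin]
    rw [Finset.sum_congr rfl (fun i _ => h2 i), Fintype.sum_sum_type, Fintype.sum_sum_type]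
    simp only [cc, Sum.elim_inl, Sum.elim_inr, sum_const, card_univ, Fintype.card_fin,
      smul_eq_mul]
    omega
  have hNE2 := ne_transport (Fintype.equivOfCardEq hcard) hNE
  have hd := hcrit _ (cc s a b) 𝓕 h1 hNE2
  have hc := hcount _ (cc s a b) 𝓕
  rw [(ZMod.intCast_zmod_eq_zero_iff_dvd _ 2).2 (by exact_mod_cast hd)] at hc
  have e : (∏ i, zz 𝓕 (cc s a b i)) = Xc 𝓕 0 ^ s *
      ((Xc 𝓕 0 ^ 2 + Xc 𝓕 0 ^ 4 + Xc 𝓕 0 ^ 8) ^ a *
      (Xc 𝓕 0 ^ 2 + Xc 𝓕 0 ^ 16 + Xc 𝓕 0 ^ 32) ^ b) := by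
    rw [Fintype.prod_sum_type, Fintype.prod_sum_type]
    simp only [cc, Sum.elim_inl, Sum.elim_inr, prod_const, card_univ, Fintype.card_fin]
    rw [zz_zero, zz_pos (by norm_num), zz_pos (by norm_num), (X3 (Xc_sq (𝓕 := 𝓕))).1,
      (X3 (Xc_sq (𝓕 := 𝓕))).2]
  rw [e, ← mul_assoc] at hc
  exact hc.symm

/-- the vanishing of the values at `x ^ M` -/
theorem vanish {n k t ω : ℕ} {u : ℕ → ZMod 2} (hn : n = 112 + 32 * k + t)
    (hwin : ∀ e : ℕ, t + 32 + 2 * k ≤ e → e ≤ t + 60 + 32 * k → e ≡ n [MOD 2] →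
      u e + u (e + 8) + u (e + 12) + u (e + 16) = 0)
    (h0 : ∀ M, 2 ≤ M → M ≤ ω → u M = 0) (hω : t + 48 + 2 * k ≤ ω) (M : ℕ) (hM : 2 ≤ M)
    (hMn : M + 36 ≤ n) (hpar : M ≡ n [MOD 2]) : u M = 0 := by
  induction M using Nat.strong_induction_on with
  | _ M ih =>
    by_cases hMω : M ≤ ω
    · exact h0 M hM hMω
    · obtain ⟨e, rfl⟩ : ∃ e, M = e + 16 := ⟨M - 16, by omega⟩
      have hp : (e + 16) % 2 = n % 2 := hpar
      have hpe : e ≡ n [MOD 2] := by
        change e % 2 = n % 2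
        omega
      have h1 := hwin e (by omega) (by omega) hpe
      rw [ih e (by omega) (by omega) (by omega) hpe,
        ih (e + 8) (by omega) (by omega) (by omega) (by change (e + 8) % 2 = n % 2; omega),
        ih (e + 12) (by omega) (by omega) (by omega) (by change (e + 12) % 2 = n % 2; omega)] at h1
      simpa using h1

theorem core (hcrit : S_crit) (hcount : S_count) (hsmall : S_small) (heven : S_even)
    (hodd : S_odd) (hred : S_red) {n ω : ℕ} (hn : 600 ≤ n) (hω1 : 1 ≤ ω) (hωn : ω + 1 ≤ n)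
    (h0 : ∀ F ∈ 𝓕, ¬ F.2.Colorable ω) (h1 : ∃ F ∈ 𝓕, F.2.Colorable (ω + 1))
    (hex : ¬ ∃ k, ω = 2 ^ k ∧ Even n ∧ 2 * ω < n ∧ n < 2 * ω + 36)
    (hex' : ¬ ∃ k, ω + 1 = 2 ^ k ∧ Odd n ∧ 3 * ω < 2 * n ∧ n < 2 * ω + 37)
    (hNE : NE (univ : Finset (EV (Fin n))) (fun S => ¬ HH 𝓕 (toG S))) : False := by
  classical
  have hcol1 : ∀ F ∈ 𝓕, ¬ F.2.Colorable 1 := fun F hF hc => h0 F hF (hc.mono hω1)
  have hch : CharP (AA 𝓕 2) 2 := charP_of (h := hcol1)
  have htop : HH 𝓕 (⊤ : SimpleGraph (Fin n)) := by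
    obtain ⟨F, hF, hc⟩ := h1
    exact ⟨F, hF, hc.mono hωn⟩
  have hA := relations hcrit hcount hcol1 hNE
  have hwin := Win.t (AA 𝓕 2) (Xc 𝓕 0) (fL 𝓕) n hA
  obtain ⟨k, t, hkt, ht⟩ : ∃ k t, n = 112 + 32 * k + t ∧ t < 32 :=
    ⟨(n - 112) / 32, (n - 112) % 32, by omega, Nat.mod_lt _ (by norm_num)⟩
  have hwin' : ∀ e : ℕ, t + 32 + 2 * k ≤ e → e ≤ t + 60 + 32 * k → e ≡ n [MOD 2] →
      fL 𝓕 (Xc 𝓕 0 ^ e) + fL 𝓕 (Xc 𝓕 0 ^ (e + 8)) + fL 𝓕 (Xc 𝓕 0 ^ (e + 12)) +
        fL 𝓕 (Xc 𝓕 0 ^ (e + 16)) = 0 := fun e h3 h4 h5 => hwin k t e hkt h3 h4 h5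
  by_cases hs : 2 * ω ≤ 16 + 15 * k
  · -- small threshold
    set N := Nat.log 2 ω + 1 with hN
    have h3 : 2 ^ Nat.log 2 ω ≤ ω := Nat.pow_log_le_self 2 (by omega)
    have h4 : ω < 2 ^ N := Nat.lt_pow_succ_log_self (by norm_num) ω
    have h5 : 2 ^ N = 2 * 2 ^ Nat.log 2 ω := by rw [hN, pow_succ, mul_comm]
    have hD : ∑ k ∈ range (N + 1), (N.choose k : AA 𝓕 2) * Xc 𝓕 0 ^ (2 ^ k) = 0 := by
      rw [← X_binom (Xc_sq (𝓕 := 𝓕)) N]
      obtain ⟨F, hF, hc⟩ := h1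
      exact Xc_eq_zero ⟨F, hF, hc.mono (by omega)⟩
    have hfn : fL 𝓕 (Xc 𝓕 0 ^ n) = 0 := by
      have := hA n 0 0 (by omega)
      simpa using this
    have h6 := hsmall (AA 𝓕 2) (Xc 𝓕 0) (fL 𝓕) n N (t + 32 + 2 * k) (t + 60 + 32 * k) (by omega)
      hD (by omega) hfn (by change (t + 32 + 2 * k) % 2 = n % 2; omega) (by omega) (by omega)
      hwin'
    have h7 : fL 𝓕 (Xc 𝓕 0) = 1 := u_one hcol1
    rw [h6] at h7
    exact zero_ne_one h7
  · -- large threshold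
    have hv : ∀ M, 2 ≤ M → M + 36 ≤ n → M ≡ n [MOD 2] → fL 𝓕 (Xc 𝓕 0 ^ M) = 0 := by
      intro M hM hMn hpar
      exact vanish (ω := ω) (u := fun M => fL 𝓕 (Xc 𝓕 0 ^ M)) hkt hwin'
        (fun M (h3 : 2 ≤ M) (h4 : M ≤ ω) => u_zero h0 h3 h4) (by omega) M hM hMn hpar
    have hcontra : ∀ M, 2 ≤ M → M + 36 ≤ n → M ≡ n [MOD 2] → fL 𝓕 (Xc 𝓕 0 ^ M) = 1 → False := by
      intro M h3 h4 h5 h6
      rw [hv M h3 h4 h5] at h6
      exact zero_ne_one h6
    have hu1 : fL 𝓕 (Xc 𝓕 0 ^ (ω + 1)) = 1 := u_succ hω1 h0 h1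
    rcases Nat.even_or_odd n with hne | hno
    · -- even number of vertices
      by_cases h2ω : n ≤ 2 * ω
      · refine heven n 𝓕 (by omega) hne (fun F hF hc => h0 F hF (hc.mono (by omega))) htop hNE
      · have hn2 : n % 2 = 0 := Nat.even_iff.1 hne
        rcases Nat.even_or_odd ω with hωe | hωo
        · obtain ⟨k', c, hc, hωc⟩ := Nat.exists_eq_two_pow_mul_odd (n := ω) (by omega)
          have hk1 : 1 ≤ k' := by
            by_contra hk0
            have : k' = 0 := by omega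
            subst this
            rw [pow_zero, one_mul] at hωc
            rw [← hωc] at hc
            exact (Nat.not_even_iff_odd.2 hc) hωe
          obtain ⟨b, rfl⟩ := hc
          have h6 := even_val (𝓕 := 𝓕) (k := k') (b := b) h0 h1 (by rw [← hωc]) (by
            have : 2 ^ k' * (2 * (b + 1)) = 2 ^ k' * (2 * b + 1) + 2 ^ k' := by ring
            rw [this, ← hωc]
            have := Nat.one_le_two_pow (n := k')
            omega)
          have e1 : 2 ^ k' * (2 * (b + 1)) = ω + 2 ^ k' := by rw [hωc]; ring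
          rw [e1] at h6
          have hke : 2 ^ k' % 2 = 0 := by
            obtain ⟨k'', rfl⟩ : ∃ k'', k' = k'' + 1 := ⟨k' - 1, by omega⟩
            rw [pow_succ]
            omega
          have hωe' : ω % 2 = 0 := Nat.even_iff.1 hωe
          rcases Nat.eq_zero_or_pos b with rfl | hb
          · rw [mul_zero, zero_add, mul_one] at hωc
            by_cases h36 : n < 2 * ω + 36
            · exact hex ⟨k', hωc, hne, by omega, h36⟩
            · exact hcontra _ (by omega) (by omega)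
                (by change (ω + 2 ^ k') % 2 = n % 2; omega) h6
          · have h7 : 3 * 2 ^ k' ≤ ω := by
              rw [hωc]
              have : 3 ≤ 2 * b + 1 := by omega
              calc 3 * 2 ^ k' = 2 ^ k' * 3 := mul_comm _ _
                _ ≤ 2 ^ k' * (2 * b + 1) := Nat.mul_le_mul_left _ this
            exact hcontra _ (by omega) (by omega)
              (by change (ω + 2 ^ k') % 2 = n % 2; omega) h6
        · have : ω % 2 = 1 := Nat.odd_iff.1 hωo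
          exact hcontra _ (by omega) (by omega) (by change (ω + 1) % 2 = n % 2; omega) hu1
    · -- odd number of vertices
      have hn2 : n % 2 = 1 := Nat.odd_iff.1 hno
      by_cases h3ω : 2 * n ≤ 3 * ω
      · exact hodd n ω 𝓕 (by omega) hno h3ω h0 htop hNE
      · rcases Nat.even_or_odd ω with hωe | hωo
        · have : ω % 2 = 0 := Nat.even_iff.1 hωe
          exact hcontra _ (by omega) (by omega) (by change (ω + 1) % 2 = n % 2; omega) hu1
        · have hω2 : ω % 2 = 1 := Nat.odd_iff.1 hωo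
          obtain ⟨k', c, hc, hωc⟩ := Nat.exists_eq_two_pow_mul_odd (n := ω + 1) (by omega)
          have hk1 : 1 ≤ k' := by
            by_contra hk0
            have : k' = 0 := by omega
            subst this
            rw [pow_zero, one_mul] at hωc
            obtain ⟨d, hd⟩ := hc
            omega
          have hke : 2 ^ k' % 2 = 0 := by
            obtain ⟨k'', rfl⟩ : ∃ k'', k' = k'' + 1 := ⟨k' - 1, by omega⟩
            rw [pow_succ]
            omega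
          obtain ⟨b, rfl⟩ := hc
          rcases Nat.eq_zero_or_pos b with rfl | hb
          · rw [mul_zero, zero_add, mul_one] at hωc
            by_cases h37 : n < 2 * ω + 37
            · exact hex' ⟨k', hωc, hno, by omega, h37⟩
            · have h8 := full_val (𝓕 := 𝓕) hk1 (by rw [← hωc, Nat.add_sub_cancel]; exact h0)
                (by rw [← hωc]; exact h1)
              have e2 : 2 ^ (k' + 1) - 1 = ω + 2 ^ k' := by
                rw [pow_succ]
                omega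
              rw [e2] at h8
              exact hcontra _ (by omega) (by omega)
                (by change (ω + 2 ^ k') % 2 = n % 2; omega) h8
          · obtain ⟨b, rfl⟩ : ∃ b', b = b' + 1 := ⟨b - 1, by omega⟩
            have e3 : 2 * (b + 1) + 1 = 2 * b + 3 := by ring
            rw [e3] at hωc
            have h8 := odd_val (𝓕 := 𝓕) hred hk1 hωc h0 h1
            have h7 : 3 * 2 ^ k' ≤ ω + 1 := by
              rw [hωc]
              have : 3 ≤ 2 * b + 3 := by omega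
              calc 3 * 2 ^ k' = 2 ^ k' * 3 := mul_comm _ _
                _ ≤ 2 ^ k' * (2 * b + 3) := Nat.mul_le_mul_left _ this
            exact hcontra _ (by omega) (by omega)
              (by change (ω + 2 ^ k') % 2 = n % 2; omega) h8

end Pool.Agent.Y577.EV
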