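import Mathlib

set_option autoImplicit false

/-! Commutative rings of characteristic 2: filtration by weight, powers of an element. -/

namespace Pool.Agent.Y577.EV

open Finset

section Zf

variable {A : Type} [CommRing A] (X : ℕ → A)

/-- sums of products of `m` factors `X j` with total weight at most `w`, `X j` has weight `2 ^ j` -/
def Zf (w m : ℕ) : AddSubgroup A := AddSubgroup.closure
  {y | ∃ v : Fin m → ℕ, ∑ i, 2 ^ (v i) ≤ w ∧ y = ∏ i, X (v i)}

variable {X}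

theorem Zf_mono {w w' m : ℕ} (h : w ≤ w') : Zf X w m ≤ Zf X w' m := by
  apply AddSubgroup.closure_mono
  rintro y ⟨v, h1, h2⟩
  exact ⟨v, h1.trans h, h2⟩

theorem Zf_mul {w m w' m' : ℕ} {a b : A} (ha : a ∈ Zf X w m) (hb : b ∈ Zf X w' m') :
    a * b ∈ Zf X (w + w') (m + m') := by
  have hb' := hb
  unfold Zf at ha
  induction ha using AddSubgroup.closure_induction with
  | mem a ha =>
    unfold Zf at hb
    induction hb using AddSubgroup.closure_induction with
    | mem b hb =>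
      obtain ⟨v, h1, rfl⟩ := ha
      obtain ⟨v', h1', rfl⟩ := hb
      refine AddSubgroup.subset_closure ⟨Fin.append v v', ?_, ?_⟩
      · rw [Fin.sum_univ_add]
        simp only [Fin.append_left, Fin.append_right]
        omega
      · rw [Fin.prod_univ_add]
        simp only [Fin.append_left, Fin.append_right]
    | zero => rw [mul_zero]; exact AddSubgroup.zero_mem _
    | add y z hy' hz' hy hz =>
      rw [mul_add]; exact AddSubgroup.add_mem _ (hy hy') (hz hz')
    | neg y hy' hy => rw [mul_neg]; exact AddSubgroup.neg_mem _ (hy hy')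
  | zero => rw [zero_mul]; exact AddSubgroup.zero_mem _
  | add y z _ _ hy hz => rw [add_mul]; exact AddSubgroup.add_mem _ hy hz
  | neg y _ hy => rw [neg_mul]; exact AddSubgroup.neg_mem _ hy

theorem Zf_one : (1 : A) ∈ Zf X 0 0 :=
  AddSubgroup.subset_closure ⟨fun _ => 0, by simp, by simp⟩

theorem Zf_pow {w m : ℕ} {a : A} (ha : a ∈ Zf X w m) (i : ℕ) :
    a ^ i ∈ Zf X (w * i) (m * i) := by
  induction i with
  | zero => simpa using Zf_one
  | succ i ih =>
    rw [pow_succ, mul_add, mul_add, mul_one, mul_one]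
    exact Zf_mul ih ha

theorem X_mem (k : ℕ) : X k ∈ Zf X (2 ^ k) 1 :=
  AddSubgroup.subset_closure ⟨fun _ => k, by simp, by simp⟩

theorem Zf_map {w m : ℕ} (f : A →+ ZMod 2)
    (hf : ∀ v : Fin m → ℕ, ∑ i, 2 ^ (v i) ≤ w → f (∏ i, X (v i)) = 0) {a : A}
    (ha : a ∈ Zf X w m) : f a = 0 := by
  unfold Zf at ha
  induction ha using AddSubgroup.closure_induction with
  | mem a ha =>
    obtain ⟨v, h1, rfl⟩ := ha
    exact hf v h1
  | zero => exact map_zero _
  | add y z _ _ hy hz => rw [map_add, hy, hz, add_zero]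
  | neg y _ hy => rw [map_neg, hy, neg_zero]

theorem pow_diff {w m : ℕ} {a r : A} (ha : a ∈ Zf X (2 * w) m) (hr : r ∈ Zf X w m)
    (b : ℕ) : (a + r) ^ (b + 1) - a ^ (b + 1) ∈ Zf X (2 * w * b + w) (m * (b + 1)) := by
  induction b with
  | zero =>
    have e1 : (a + r) ^ (0 + 1) - a ^ (0 + 1) = r := by ring
    rw [e1, mul_zero, zero_add, zero_add, mul_one]
    exact hr
  | succ b ih =>
    have e1 : (a + r) ^ (b + 1 + 1) - a ^ (b + 1 + 1) =
        ((a + r) ^ (b + 1) - a ^ (b + 1)) * (a + r) + a ^ (b + 1) * r := by ring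
    have h1 : a + r ∈ Zf X (2 * w) m := AddSubgroup.add_mem _ ha (Zf_mono (by omega) hr)
    have h2 := Zf_mul ih h1
    have h3 := Zf_mul (Zf_pow ha (b + 1)) hr
    rw [e1]
    have e2 : 2 * w * b + w + 2 * w = 2 * w * (b + 1) + w := by ring
    have e3 : m * (b + 1) + m = m * (b + 1 + 1) := by ring
    rw [e2, e3] at h2
    rw [e3] at h3
    exact AddSubgroup.add_mem _ h2 h3

end Zf

section Two

variable {A : Type} [CommRing A] [CharP A 2] {X : ℕ → A}

/-- the powers of `x` with exponent a power of two -/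
theorem pow_two_pow (hX : ∀ j, X j ^ 2 = X j + X (j + 1)) (k : ℕ) :
    X 0 ^ (2 ^ k) - X k ∈ AddSubgroup.closure {y : A | ∃ j < k, y = X j} := by
  induction k with
  | zero =>
    rw [pow_zero, pow_one, sub_self]
    exact AddSubgroup.zero_mem _
  | succ k ih =>
    set r := X 0 ^ (2 ^ k) - X k with hr
    have e1 : X 0 ^ (2 ^ (k + 1)) = X k ^ 2 + r ^ 2 := by
      have e2 : X 0 ^ (2 ^ (k + 1)) = (X 0 ^ (2 ^ k)) ^ 2 := by
        rw [← pow_mul, pow_succ]
      have e3 : X 0 ^ (2 ^ k) = X k + r := by rw [hr]; ring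
      rw [e2, e3, CharTwo.add_sq]
    have e4 : X 0 ^ (2 ^ (k + 1)) - X (k + 1) = X k + r ^ 2 := by
      rw [e1, hX]; ring
    rw [e4]
    refine AddSubgroup.add_mem _ (AddSubgroup.subset_closure ⟨k, by omega, rfl⟩) ?_
    clear_value r
    clear hr e1 e4
    induction ih using AddSubgroup.closure_induction with
    | mem y hy =>
      obtain ⟨j, hj, rfl⟩ := hy
      rw [hX]
      exact AddSubgroup.add_mem _ (AddSubgroup.subset_closure ⟨j, by omega, rfl⟩)
        (AddSubgroup.subset_closure ⟨j + 1, by omega, rfl⟩)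
    | zero => rw [zero_pow (by norm_num)]; exact AddSubgroup.zero_mem _
    | add y z _ _ hy hz => rw [CharTwo.add_sq]; exact AddSubgroup.add_mem _ hy hz
    | neg y _ hy => rw [neg_pow_two]; exact hy

theorem rest_mem (hX : ∀ j, X j ^ 2 = X j + X (j + 1)) (k : ℕ) :
    X 0 ^ (2 ^ (k + 1)) - X (k + 1) ∈ Zf X (2 ^ k) 1 := by
  refine (AddSubgroup.closure_le _).2 ?_ (pow_two_pow hX (k + 1))
  rintro y ⟨j, hj, rfl⟩
  exact Zf_mono (Nat.pow_le_pow_right (by norm_num) (by omega)) (X_mem j)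

theorem rest_sq_mem (hX : ∀ j, X j ^ 2 = X j + X (j + 1)) (k : ℕ) :
    (X 0 ^ (2 ^ k) - X k) ^ 2 ∈ Zf X (2 ^ k) 2 := by
  rcases k with _ | k
  · rw [pow_zero, pow_one, sub_self, zero_pow (by norm_num)]
    exact AddSubgroup.zero_mem _
  · have := Zf_pow (rest_mem hX k) 2
    rwa [← pow_succ] at this

/-- the power `2 ^ k * (2 * (b + 1))` -/
theorem pow_even (hX : ∀ j, X j ^ 2 = X j + X (j + 1)) (k b : ℕ) :
    X 0 ^ (2 ^ k * (2 * (b + 1))) - X k ^ (2 * (b + 1)) ∈
      Zf X (2 * 2 ^ k * b + 2 ^ k) (2 * (b + 1)) := by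
  set r := X 0 ^ (2 ^ k) - X k with hr
  have e3 : X 0 ^ (2 ^ k) = X k + r := by rw [hr]; ring
  have e1 : X 0 ^ (2 ^ k * (2 * (b + 1))) = (X k ^ 2 + r ^ 2) ^ (b + 1) := by
    rw [pow_mul, pow_mul, e3, CharTwo.add_sq]
  have h4 : X k ^ 2 ∈ Zf X (2 * 2 ^ k) 2 := by
    have := Zf_pow (X_mem (X := X) k) 2
    rwa [mul_comm (2 ^ k) 2, one_mul] at this
  have h5 := pow_diff h4 (rest_sq_mem hX k) b
  rw [← hr] at h5
  rw [e1, pow_mul]
  exact h5

/-- the power `2 ^ (k + 1) * (b + 1) + s` -/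
theorem pow_odd (hX : ∀ j, X j ^ 2 = X j + X (j + 1)) (k b s : ℕ) :
    X 0 ^ (2 ^ (k + 1) * (b + 1) + s) - X (k + 1) ^ (b + 1) * X 0 ^ s ∈
      Zf X (2 * 2 ^ k * b + 2 ^ k + s) (b + 1 + s) := by
  set r := X 0 ^ (2 ^ (k + 1)) - X (k + 1) with hr
  have e3 : X 0 ^ (2 ^ (k + 1)) = X (k + 1) + r := by rw [hr]; ring
  have h4 : X (k + 1) ∈ Zf X (2 * 2 ^ k) 1 := by
    have := X_mem (X := X) (k + 1)
    rwa [pow_succ, mul_comm (2 ^ k) 2] at this
  have h5 := pow_diff h4 (rest_mem hX k) b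
  rw [← hr, one_mul] at h5
  have h6 : X 0 ^ s ∈ Zf X s s := by
    have := Zf_pow (X_mem (X := X) 0) s
    rwa [pow_zero, one_mul] at this
  have h7 := Zf_mul h5 h6
  have e1 : X 0 ^ (2 ^ (k + 1) * (b + 1) + s) - X (k + 1) ^ (b + 1) * X 0 ^ s =
      ((X (k + 1) + r) ^ (b + 1) - X (k + 1) ^ (b + 1)) * X 0 ^ s := by
    rw [pow_add, pow_mul, e3]; ring
  rw [e1]
  exact h7

theorem X_expand (hX : ∀ j, X j ^ 2 = X j + X (j + 1)) (k : ℕ) (hk : 1 ≤ k) :
    X k - X 0 - X 0 ^ (2 ^ k) ∈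
    AddSubgroup.closure {y : A | ∃ j, 1 ≤ j ∧ j < k ∧ y = X 0 ^ (2 ^ j)} := by
  have h2 : (2 : A) = 0 := CharTwo.two_eq_zero
  induction k, hk using Nat.le_induction with
  | base =>
    have h := hX 0
    rw [zero_add] at h
    have e : X 1 - X 0 - X 0 ^ (2 ^ 1) = 0 := by
      rw [pow_one, h]
      linear_combination (-X 0) * h2
    rw [e]
    exact AddSubgroup.zero_mem _
  | succ k hk ih =>
    set r := X k - X 0 - X 0 ^ (2 ^ k) with hr
    have e3 : X k = X 0 + X 0 ^ (2 ^ k) + r := by rw [hr]; ring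
    have e4 : X (k + 1) = X k + X k ^ 2 := by
      rw [hX]
      linear_combination (-X k) * h2
    have e5 : (X 0 ^ (2 ^ k)) ^ 2 = X 0 ^ (2 ^ (k + 1)) := by rw [← pow_mul, pow_succ]
    have e6 : X (k + 1) - X 0 - X 0 ^ (2 ^ (k + 1)) =
        X 0 ^ (2 ^ k) + r + X 0 ^ (2 ^ 1) + r ^ 2 := by
      rw [e4, e3, CharTwo.add_sq, CharTwo.add_sq, e5, pow_one]
      ring
    rw [e6]
    clear_value r
    clear hr e3 e4 e5 e6
    have hr1 : r ∈ AddSubgroup.closure
        {y : A | ∃ j, 1 ≤ j ∧ j < k + 1 ∧ y = X 0 ^ (2 ^ j)} := by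
      refine AddSubgroup.closure_mono ?_ ih
      rintro y ⟨j, h1, h3, h4⟩
      exact ⟨j, h1, by omega, h4⟩
    have hr2 : r ^ 2 ∈ AddSubgroup.closure
        {y : A | ∃ j, 1 ≤ j ∧ j < k + 1 ∧ y = X 0 ^ (2 ^ j)} := by
      clear hr1
      induction ih using AddSubgroup.closure_induction with
      | mem y hy =>
        obtain ⟨j, h1, h3, rfl⟩ := hy
        rw [← pow_mul, ← pow_succ]
        exact AddSubgroup.subset_closure ⟨j + 1, by omega, by omega, rfl⟩
      | zero => rw [zero_pow (by norm_num)]; exact AddSubgroup.zero_mem _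
      | add y z _ _ hy hz => rw [CharTwo.add_sq]; exact AddSubgroup.add_mem _ hy hz
      | neg y _ hy => rw [neg_pow_two]; exact hy
    refine AddSubgroup.add_mem _ (AddSubgroup.add_mem _ (AddSubgroup.add_mem _
      (AddSubgroup.subset_closure ⟨k, hk, by omega, rfl⟩) hr1)
      (AddSubgroup.subset_closure ⟨1, le_rfl, by omega, rfl⟩)) hr2

/-- the relation `D ^ k x = 0` written with binomial coefficients -/
theorem X_binom (hX : ∀ j, X j ^ 2 = X j + X (j + 1)) (N : ℕ) :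
    X N = ∑ k ∈ range (N + 1), (N.choose k : A) * X 0 ^ (2 ^ k) := by
  have h2 : (2 : A) = 0 := CharTwo.two_eq_zero
  induction N with
  | zero => simp
  | succ N ih =>
    have e4 : X (N + 1) = X N + X N ^ 2 := by
      rw [hX]
      linear_combination (-X N) * h2
    have hc : ∀ c : ℕ, (c : A) ^ 2 = (c : A) := by
      intro c
      rcases Nat.even_or_odd c with h | h
      · obtain ⟨d, rfl⟩ := h
        have : ((d + d : ℕ) : A) = 0 := by
          push_cast
          linear_combination (d : A) * h2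
        rw [this]; ring
      · obtain ⟨d, rfl⟩ := h
        have : ((2 * d + 1 : ℕ) : A) = 1 := by
          push_cast
          linear_combination (d : A) * h2
        rw [this]; ring
    have e5 : (∑ k ∈ range (N + 1), (N.choose k : A) * X 0 ^ (2 ^ k)) ^ 2 =
        ∑ k ∈ range (N + 1), (N.choose k : A) * X 0 ^ (2 ^ (k + 1)) := by
      rw [CharTwo.sum_sq]
      refine Finset.sum_congr rfl fun k _ => ?_
      rw [mul_pow, hc, ← pow_mul, ← pow_succ]
    rw [e4, ih, e5]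
    have e6 : ∑ k ∈ range (N + 1 + 1), ((N + 1).choose k : A) * X 0 ^ (2 ^ k) =
        ∑ k ∈ range (N + 1), ((N + 1).choose (k + 1) : A) * X 0 ^ (2 ^ (k + 1)) + X 0 ^ (2 ^ 0) := by
      rw [Finset.sum_range_succ']
      simp
    have e7 : ∑ k ∈ range (N + 1), (N.choose k : A) * X 0 ^ (2 ^ k) =
        ∑ k ∈ range (N + 1), (N.choose (k + 1) : A) * X 0 ^ (2 ^ (k + 1)) + X 0 ^ (2 ^ 0) := by
      have h3 : ∑ k ∈ range (N + 1 + 1), (N.choose k : A) * X 0 ^ (2 ^ k) =
          ∑ k ∈ range (N + 1), (N.choose k : A) * X 0 ^ (2 ^ k) := by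
        rw [Finset.sum_range_succ, Nat.choose_succ_self]
        simp
      rw [← h3, Finset.sum_range_succ']
      simp
    rw [e6, e7]
    have e8 : ∑ k ∈ range (N + 1), ((N + 1).choose (k + 1) : A) * X 0 ^ (2 ^ (k + 1)) =
        ∑ k ∈ range (N + 1), (N.choose k : A) * X 0 ^ (2 ^ (k + 1)) +
        ∑ k ∈ range (N + 1), (N.choose (k + 1) : A) * X 0 ^ (2 ^ (k + 1)) := by
      rw [← Finset.sum_add_distrib]
      refine Finset.sum_congr rfl fun k _ => ?_
      rw [Nat.choose_succ_succ]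
      push_cast
      ring
    rw [e8]
    ring

/-- threshold `2 ^ k - 1`: the value at `2 ^ (k + 1) - 1` -/
theorem full_gen (hX : ∀ j, X j ^ 2 = X j + X (j + 1)) {k : ℕ} (hk : 1 ≤ k) (h0 : X k = 0)
    (f : A →+ ZMod 2) (hpos : ∀ M, 2 ≤ M → M ≤ 2 ^ k - 1 → f (X 0 ^ M) = 0)
    (h1 : f (X 0 ^ (2 ^ k)) = 1) : f (X 0 ^ (2 ^ (k + 1) - 1)) = 1 := by
  have h2 : (2 : A) = 0 := CharTwo.two_eq_zero
  have hk2 : 2 ≤ 2 ^ k := by
    calc 2 = 2 ^ 1 := by norm_num
      _ ≤ 2 ^ k := Nat.pow_le_pow_right (by norm_num) hk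
  have hmem := X_expand hX k hk
  rw [h0] at hmem
  set r := (0 : A) - X 0 - X 0 ^ (2 ^ k) with hr
  have e1 : X 0 ^ (2 ^ k) = X 0 + r := by
    rw [hr]
    linear_combination (X 0 ^ (2 ^ k)) * h2
  have hjk : ∀ j, j < k → 2 ^ j * 2 ≤ 2 ^ k := by
    intro j hj
    rw [← pow_succ]
    exact Nat.pow_le_pow_right (by norm_num) (by omega)
  have h1j : ∀ j, 1 ≤ j → 2 ≤ 2 ^ j := by
    intro j hj
    calc 2 = 2 ^ 1 := by norm_num
      _ ≤ 2 ^ j := Nat.pow_le_pow_right (by norm_num) hj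
  have key1 : ∀ j, 1 ≤ j → j < k → ∀ y ∈ AddSubgroup.closure
      {y : A | ∃ j, 1 ≤ j ∧ j < k ∧ y = X 0 ^ (2 ^ j)}, f (X 0 ^ (2 ^ j - 1) * y) = 0 := by
    intro j hj1 hj2 y hy
    induction hy using AddSubgroup.closure_induction with
    | mem y hy =>
      obtain ⟨i, h3, h4, rfl⟩ := hy
      rw [← pow_add]
      have := hjk j hj2
      have := hjk i h4
      have := h1j j hj1
      have := h1j i h3
      exact hpos _ (by omega) (by omega)
    | zero => rw [mul_zero, map_zero]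
    | add y z _ _ hy hz => rw [mul_add, map_add, hy, hz, add_zero]
    | neg y _ hy => rw [mul_neg, map_neg, hy, neg_zero]
  have key2 : ∀ y ∈ AddSubgroup.closure
      {y : A | ∃ j, 1 ≤ j ∧ j < k ∧ y = X 0 ^ (2 ^ j)}, f (y * X 0 ^ (2 ^ k - 1)) = 0 := by
    intro y hy
    induction hy using AddSubgroup.closure_induction with
    | mem y hy =>
      obtain ⟨i, h3, h4, rfl⟩ := hy
      have h5 := h1j i h3
      have h6 := hjk i h4
      have e2 : X 0 ^ (2 ^ i) * X 0 ^ (2 ^ k - 1) = X 0 ^ (2 ^ i - 1) * X 0 ^ (2 ^ k) := by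
        rw [← pow_add, ← pow_add]
        congr 1
        omega
      have e7 : X 0 ^ (2 ^ i - 1) * X 0 = X 0 ^ (2 ^ i) := by
        rw [← pow_succ]
        congr 1
        omega
      rw [e2, e1, mul_add, map_add, key1 i h3 h4 r hmem, add_zero, e7]
      exact hpos _ (by omega) (by omega)
    | zero => rw [zero_mul, map_zero]
    | add y z _ _ hy hz => rw [add_mul, map_add, hy, hz, add_zero]
    | neg y _ hy => rw [neg_mul, map_neg, hy, neg_zero]
  have e3 : X 0 ^ (2 ^ (k + 1) - 1) = X 0 ^ (2 ^ k) + r * X 0 ^ (2 ^ k - 1) := by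
    have e4 : X 0 ^ (2 ^ (k + 1) - 1) = X 0 ^ (2 ^ k) * X 0 ^ (2 ^ k - 1) := by
      rw [← pow_add]
      congr 1
      rw [pow_succ]
      omega
    have e5 : X 0 * X 0 ^ (2 ^ k - 1) = X 0 ^ (2 ^ k) := by
      rw [← pow_succ']
      congr 1
      omega
    calc X 0 ^ (2 ^ (k + 1) - 1) = X 0 ^ (2 ^ k) * X 0 ^ (2 ^ k - 1) := e4
      _ = (X 0 + r) * X 0 ^ (2 ^ k - 1) := by rw [← e1]
      _ = X 0 ^ (2 ^ k) + r * X 0 ^ (2 ^ k - 1) := by rw [add_mul, e5]
  rw [e3, map_add, key2 r hmem, add_zero]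
  exact h1

end Two

end Pool.Agent.Y577.EV
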