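import Pool.Agent.Y577.EV.Val
import Pool.Agent.Y577.EV.Gen

set_option autoImplicit false
set_option linter.unusedSectionVars false

/-! Values of the functional at `x ^ (ω + 2 ^ k)`. -/

namespace Pool.Agent.Y577.EV

open Finset Pool.Agent.H98R2.Ev Pool.Agent.TH410.KV

variable {𝓕 : Fam}

/-- the functional as an additive map -/
noncomputable def fL (𝓕 : Fam) : AA 𝓕 2 →+ ZMod 2 := (Lb 𝓕 2).toAddMonoidHom

theorem fL_apply (a : AA 𝓕 2) : fL 𝓕 a = Lb 𝓕 2 a := rfl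

theorem charP_of {h : ∀ F ∈ 𝓕, ¬ F.2.Colorable 1} : CharP (AA 𝓕 2) 2 := by
  have : NeZero 2 := ⟨by norm_num⟩
  have hX : ∀ H : 𝓕, univ ∉ (xi : TY 𝓕).1 H := by
    intro H hH
    have h2 : univ ∈ ((J 2)^[0] (xi : TY 𝓕)).1 H := hH
    rw [xi_iter, pow_zero] at h2
    exact h H.1 H.2 h2
  have hnt : Nontrivial (AA 𝓕 2) := nontrivial_AA 2 _ hX
  exact charP_AA 2

theorem Xc_sq [CharP (AA 𝓕 2) 2] (j : ℕ) : Xc 𝓕 j ^ 2 = Xc 𝓕 j + Xc 𝓕 (j + 1) := by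
  unfold Xc
  rw [cl_pow 2 (Or.inl rfl), Function.iterate_succ_apply', CharTwo.sub_eq_add]

theorem fL_Zf {ω w m : ℕ} (h0 : ∀ F ∈ 𝓕, ¬ F.2.Colorable ω) (hw : w ≤ ω) (hm : 2 ≤ m)
    {a : AA 𝓕 2} (ha : a ∈ Zf (Xc 𝓕) w m) : fL 𝓕 a = 0 := by
  refine Zf_map (fL 𝓕) (fun v h1 => ?_) ha
  rw [fL_apply, Lb_Xc]
  exact NN_small (by rw [Fintype.card_fin]; exact hm) h0 (h1.trans hw)

/-- the value at the least multiple of `2 ^ (k + 1)` above `ω` -/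
theorem even_val [CharP (AA 𝓕 2) 2] {ω k b : ℕ} (h0 : ∀ F ∈ 𝓕, ¬ F.2.Colorable ω)
    (h1 : ∃ F ∈ 𝓕, F.2.Colorable (ω + 1)) (h2 : 2 ^ k * (2 * b + 1) ≤ ω)
    (h3 : ω + 1 ≤ 2 ^ k * (2 * (b + 1))) : fL 𝓕 (Xc 𝓕 0 ^ (2 ^ k * (2 * (b + 1)))) = 1 := by
  have h4 := fL_Zf h0 (by
    have e5 : 2 * 2 ^ k * b + 2 ^ k = 2 ^ k * (2 * b + 1) := by ring
    rw [e5]
    exact h2) (by omega) (pow_even (Xc_sq (𝓕 := 𝓕)) k b)
  rw [map_sub, sub_eq_zero] at h4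
  rw [h4, fL_apply, Lb_Xc_pow]
  refine NN_const h0 h1 (by omega) ?_ h3
  have e : 2 * (b + 1) - 1 = 2 * b + 1 := by omega
  rw [e]
  exact h2

/-- a complete block with many vertices -/
theorem Xc_eq_zero {k : ℕ} (h1 : ∃ F ∈ 𝓕, F.2.Colorable (2 ^ k)) : Xc 𝓕 k = 0 := by
  obtain ⟨F, hF, hc⟩ := h1
  exact cl_zero 2 _ ⟨F, hF⟩ ((xi_iter 2 k ⟨F, hF⟩).2 hc)

/-- threshold `2 ^ k - 1`: the value at `2 ^ (k + 1) - 1` -/
theorem full_val [CharP (AA 𝓕 2) 2] {k : ℕ} (hk : 1 ≤ k)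
    (h0 : ∀ F ∈ 𝓕, ¬ F.2.Colorable (2 ^ k - 1))
    (h1 : ∃ F ∈ 𝓕, F.2.Colorable (2 ^ k)) : fL 𝓕 (Xc 𝓕 0 ^ (2 ^ (k + 1) - 1)) = 1 := by
  have hk2 : 2 ≤ 2 ^ k := by
    calc 2 = 2 ^ 1 := by norm_num
      _ ≤ 2 ^ k := Nat.pow_le_pow_right (by norm_num) hk
  refine full_gen (Xc_sq (𝓕 := 𝓕)) hk (Xc_eq_zero h1) (fL 𝓕) ?_ ?_
  · intro M h3 h4
    exact u_zero h0 h3 h4
  · have h7 := u_succ (𝓕 := 𝓕) (ω := 2 ^ k - 1) (by omega) h0 (by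
      rw [Nat.sub_add_cancel (by omega)]; exact h1)
    rwa [Nat.sub_add_cancel (by omega)] at h7

/-- composition with a colouring -/
theorem hom_of_colorable {m k : ℕ} {F : SimpleGraph (Fin k)} (h : F.Colorable m) :
    Nonempty (F →g (⊤ : SimpleGraph (Fin m))) := h

theorem jk_colorable {a m : ℕ} {V : Type} {G : SimpleGraph V} (h : G.Colorable m) :
    (jk a G).Colorable (a + m) := by
  obtain ⟨C⟩ := h
  have D : (jk a G).Coloring (Fin a ⊕ Fin m) := SimpleGraph.Coloring.mk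
    (Sum.map id C) (by
      rintro (i | u) (j | v) ⟨h1, h2⟩ heq
      · simp only [Sum.map_inl, id, Sum.inl.injEq] at heq
        exact h1 (by rw [heq])
      · simp at heq
      · simp at heq
      · simp only [Sum.map_inr, Sum.inr.injEq] at heq
        exact C.valid (h2 u v rfl rfl) heq)
  have h3 := D.colorable
  rwa [Fintype.card_sum, Fintype.card_fin, Fintype.card_fin] at h3

/-- the value at `ω + 2 ^ k` for `ω + 1 = 2 ^ k * (2 * b + 3)`, `ω + 2 ^ k` odd -/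
theorem odd_val (hred : S_red) {ω k b : ℕ} (hk : 1 ≤ k)
    (hω : ω + 1 = 2 ^ k * (2 * b + 3)) (h0 : ∀ F ∈ 𝓕, ¬ F.2.Colorable ω)
    (h1 : ∃ F ∈ 𝓕, F.2.Colorable (ω + 1)) [CharP (AA 𝓕 2) 2] :
    fL 𝓕 (Xc 𝓕 0 ^ (ω + 2 ^ k)) = 1 := by
  have hk2 : 2 ≤ 2 ^ k := by
    calc 2 = 2 ^ 1 := by norm_num
      _ ≤ 2 ^ k := Nat.pow_le_pow_right (by norm_num) hk
  set q := 2 ^ k with hq
  have hq1 : 2 ^ (k + 1) = 2 * q := by rw [pow_succ, hq, mul_comm]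
  set s := 2 * q - 1 with hs
  have hqb : q * (2 * b + 3) = 2 * (q * b) + 3 * q := by ring
  have e0 : ω + q = 2 ^ (k + 1) * (b + 1) + s := by
    have e1 : 2 ^ (k + 1) * (b + 1) = 2 * (q * b) + 2 * q := by rw [hq1]; ring
    rw [e1, hs]
    omega
  have h4 := fL_Zf h0 (w := 2 * 2 ^ k * b + 2 ^ k + s) (m := b + 1 + s) (by
    have e1 : 2 * 2 ^ k * b = 2 * (q * b) := by rw [hq]; ring
    rw [e1, ← hq, hs]
    omega) (by omega) (pow_odd (Xc_sq (𝓕 := 𝓕)) k b s)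
  rw [map_sub, sub_eq_zero] at h4
  rw [e0, h4, fL_apply]
  have e2 : (Xc 𝓕 (k + 1) ^ (b + 1) * Xc 𝓕 0 ^ s : AA 𝓕 2) =
      ∏ v, cl 2 (Sum.elim (fun _ : Fin (b + 1) => (J 2)^[k + 1] (xi : TY 𝓕))
        (fun _ : Fin s => (xi : TY 𝓕)) v) := by
    rw [Fintype.prod_sum_type]
    simp only [Sum.elim_inl, Sum.elim_inr, prod_const, card_univ, Fintype.card_fin]
    rfl
  rw [e2, Lb_prod]
  have hle : 2 ^ (k + 1) * (b + 1 - 1) + s ≤ ω := by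
    have e3 : 2 ^ (k + 1) * (b + 1 - 1) = 2 * (q * b) := by
      rw [hq1, Nat.add_sub_cancel]; ring
    rw [e3, hs]
    omega
  have h5 := hred 𝓕 (b + 1) (k + 1) s (by omega) (by omega) (by rw [hq1]; omega)
    (fun F hF hc => h0 F hF (hc.mono hle))
  rw [h5]
  -- the reduced family
  set 𝓖 : Fam := {F : Σ k : ℕ, SimpleGraph (Fin k) | HH 𝓕 (jk (2 ^ (k + 1) * (b + 1)) F.2)} with h𝓖
  have ha : 2 ^ (k + 1) * (b + 1) + (q - 1) = ω := by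
    have e1 : 2 ^ (k + 1) * (b + 1) = 2 * (q * b) + 2 * q := by rw [hq1]; ring
    rw [e1]
    omega
  have g0 : ∀ F ∈ 𝓖, ¬ F.2.Colorable (2 ^ k - 1) := by
    rintro F ⟨F₀, hF₀, ⟨φ⟩⟩ hc
    have h6 := jk_colorable (a := 2 ^ (k + 1) * (b + 1)) hc
    rw [← hq, ha] at h6
    obtain ⟨C⟩ := h6
    exact h0 F₀ hF₀ ⟨C.comp φ⟩
  have g1 : ∃ F ∈ 𝓖, F.2.Colorable (2 ^ k) := by
    obtain ⟨F₀, hF₀, hc⟩ := h1
    refine ⟨⟨2 ^ k, ⊤⟩, ?_, ⟨SimpleGraph.Hom.id⟩⟩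
    refine ⟨F₀, hF₀, ?_⟩
    have hcard : Fintype.card (Fin (2 ^ (k + 1) * (b + 1)) ⊕ Fin (2 ^ k)) = ω + 1 := by
      rw [Fintype.card_sum, Fintype.card_fin, Fintype.card_fin]
      omega
    let e : Fin (ω + 1) ≃ Fin (2 ^ (k + 1) * (b + 1)) ⊕ Fin (2 ^ k) :=
      (Fintype.equivFinOfCardEq hcard).symm
    obtain ⟨C⟩ := hc
    refine ⟨⟨fun x => e (C x), fun {x y} hxy => ?_⟩⟩
    have h7 : e (C x) ≠ e (C y) := fun h => C.valid hxy (e.injective h)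
    refine ⟨h7, fun u v hu hv => ?_⟩
    rw [SimpleGraph.top_adj]
    rintro rfl
    exact h7 (hu.trans hv.symm)
  have hcol1 : ∀ F ∈ 𝓖, ¬ F.2.Colorable 1 :=
    fun F hF hc => g0 F hF (hc.mono (by omega))
  have hch : CharP (AA 𝓖 2) 2 := charP_of (h := hcol1)
  have h8 := full_val (𝓕 := 𝓖) hk g0 g1
  have hs' : 2 ^ (k + 1) - 1 = s := by rw [hq1]
  rw [hs', fL_apply, Lb_Xc_pow] at h8
  exact h8

end Pool.Agent.Y577.EV
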