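import Pool.Agent.Y577.EV.Core
import Pool.Agent.H98R2.Ev.T3
import Pool.Agent.Y350.EV.Gen
import Pool.Agent.Y407.EV.Crit
import Pool.Agent.Y705.EV.Count
import Pool.Agent.Y67.EV.Small
import Pool.Agent.Y67.EV.Red
import Pool.Agent.Y454.EW.Even
import Pool.Agent.Y454.EW.Odd

set_option autoImplicit false

/-!
# Graph properties closed under homomorphisms are evasive (MP_257582_lc)

A property `P` of graphs on `n` vertices is closed under homomorphisms if `P G` and the existence of
a homomorphism `G → H` imply `P H` (all these properties are monotone and isomorphism invariant):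
not being `k`-colourable, having no homomorphism to a fixed graph, circular chromatic number
greater than `r`, containing an odd cycle of length at most `g`, containing a complete graph on `k`
vertices, admitting a homomorphism from a fixed graph (whenever this can be expressed), ....
Theorem: for `n ≥ 600` every non-trivial such property is evasive, except possibly if the number
`ω` of the vertices of the largest complete graph without the property is `2 ^ k` (`n` even,
`2 ω < n < 2 ω + 36`) or `2 ^ k - 1` (`n` odd, `3 ω < 2 n`, `n < 2 ω + 37`).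

Proof.  The vertex set is cut into single points and fields with 8 and 32 elements; the group of the
translations of the fields, extended by a cyclic group that acts transitively on the pairs in each
field, has a normal 2-subgroup with cyclic quotient, so for a property that is not evasive the
signed number of the invariant graphs without it is even.  This number is the value of a functional
`f` on a commutative ring of characteristic 2 that is generated by the types of blocks.  Let `x` be
the type of a single point and `X j` the type of a complete block with `2 ^ j` vertices.  Exchanging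
equal blocks gives `X j ^ 2 = X j + X (j + 1)`, so that the fields with 8 and 32 elements contribute
`x ^ 2 + x ^ 4 + x ^ 8` and `x ^ 2 + x ^ 16 + x ^ 32`.  All products of total size `n` are killed by
`f`; linear combinations of them give
`f (x ^ e) + f (x ^ (e + 8)) + f (x ^ (e + 12)) + f (x ^ (e + 16)) = 0` for a long interval of `e`.
If `ω` is small, then the sequence `f (x ^ M)` is also periodic with a short period, and `f x = 0`
follows, in contradiction to `f x = 1`.  If `ω` is large, then `f (x ^ M) = 0` for `2 ≤ M ≤ ω`, and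
this propagates to all `M ≤ n - 36`, in contradiction to `f (x ^ (ω + 1)) = 1` or to
`f (x ^ (ω + 2 ^ k)) = 1`.  For still larger `ω` the group `Z_2 wr Z_(n/2)` or a cyclic group is
used.
-/

namespace Pool.Agent.Y577.EV.HomClosed

open Finset Pool.Agent.H98R2.Ev Pool.Agent.TH410.KV Pool.Agent.Y577.EV

/-- Every decision strategy `σ` (the next pair to be queried depends only on the answers to the
queries made so far) needs all `n.choose 2` queries: there are two graphs that agree on the first
`n.choose 2 - 1` queried pairs, one with and one without `P`. -/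
def Evasive {n : ℕ} (P : SimpleGraph (Fin n) → Prop) : Prop :=
  ∀ σ : Finset (Sym2 (Fin n)) → SimpleGraph (Fin n) → Sym2 (Fin n),
    (∀ (Q : Finset (Sym2 (Fin n))) (G H : SimpleGraph (Fin n)),
        (∀ e ∈ Q, (e ∈ G.edgeSet ↔ e ∈ H.edgeSet)) → σ Q G = σ Q H) →
    ∃ G H : SimpleGraph (Fin n),
      (∀ e ∈ (fun Q : Finset (Sym2 (Fin n)) => insert (σ Q G) Q)^[n.choose 2 - 1]
            (∅ : Finset (Sym2 (Fin n))),
          (e ∈ G.edgeSet ↔ e ∈ H.edgeSet)) ∧ P G ∧ ¬ P H

/-- `P` is closed under homomorphisms: if `G` has `P` and there is a homomorphism from `G` to `H`,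
then `H` has `P`. -/
def HomClosed {n : ℕ} (P : SimpleGraph (Fin n) → Prop) : Prop :=
  ∀ G H : SimpleGraph (Fin n), P G → Nonempty (G →g H) → P H

/-- The graph on `n` vertices whose edges are all pairs among the first `a` vertices. -/
def Clique (n a : ℕ) : SimpleGraph (Fin n) where
  Adj x y := x ≠ y ∧ (x : ℕ) < a ∧ (y : ℕ) < a
  symm := ⟨fun _ _ h => ⟨h.1.symm, h.2.2, h.2.1⟩⟩
  loopless := ⟨fun _ h => h.1 rfl⟩

/-- the family of the graphs with the property -/
def famOf {n : ℕ} (P : SimpleGraph (Fin n) → Prop) : Fam := {F | ∃ G, P G ∧ F = ⟨n, G⟩}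

theorem HH_famOf {n : ℕ} {P : SimpleGraph (Fin n) → Prop} (hP : HomClosed P)
    (G : SimpleGraph (Fin n)) : HH (famOf P) G ↔ P G := by
  constructor
  · rintro ⟨F, ⟨H, hH, rfl⟩, hφ⟩
    exact hP H G hH hφ
  · intro h
    exact ⟨⟨n, G⟩, ⟨G, h, rfl⟩, ⟨SimpleGraph.Hom.id⟩⟩

theorem to_clique {n a : ℕ} (ha : a ≤ n) {G : SimpleGraph (Fin n)} (h : G.Colorable a) :
    Nonempty (G →g Clique n a) := by
  obtain ⟨c⟩ := h
  refine ⟨⟨fun v => ⟨(c v : ℕ), lt_of_lt_of_le (c v).2 ha⟩, ?_⟩⟩
  intro v w hvw
  refine ⟨?_, (c v).2, (c w).2⟩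
  intro he
  apply c.valid hvw
  rw [Fin.mk.injEq] at he
  exact Fin.ext he

theorem clique_colorable {n a : ℕ} (ha : 1 ≤ a) : (Clique n a).Colorable a := by
  refine ⟨SimpleGraph.Coloring.mk (fun v => if h : (v : ℕ) < a then ⟨v, h⟩ else ⟨0, ha⟩) ?_⟩
  rintro v w ⟨h1, h2, h3⟩
  rw [dif_pos h2, dif_pos h3]
  intro he
  rw [Fin.mk.injEq] at he
  exact h1 (Fin.ext he)

/-- **Graph properties closed under homomorphisms are evasive.** -/
theorem result (n : ℕ) (hn : 600 ≤ n) (P : SimpleGraph (Fin n) → Prop) (hP : HomClosed P)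
    (h1 : ∃ G, P G) (h2 : ∃ G, ¬ P G) :
    Evasive P ∨
      (∃ k, Even n ∧ 2 ^ (k + 1) < n ∧ n < 2 ^ (k + 1) + 36 ∧
        ¬ P (Clique n (2 ^ k)) ∧ P (Clique n (2 ^ k + 1))) ∨
      (∃ k, Odd n ∧ 3 * 2 ^ k < 2 * n + 3 ∧ n < 2 ^ (k + 1) + 35 ∧
        ¬ P (Clique n (2 ^ k - 1)) ∧ P (Clique n (2 ^ k))) := by
  classical
  have hbot : ¬ P (Clique n 1) := by
    intro h
    obtain ⟨G, hG⟩ := h2
    refine hG (hP _ _ h ⟨⟨id, ?_⟩⟩)
    rintro v w ⟨h3, h4, h5⟩
    exact absurd (Fin.ext (by omega)) h3
  have hbot0 : ¬ P (Clique n 0) := by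
    intro h
    obtain ⟨G, hG⟩ := h2
    refine hG (hP _ _ h ⟨⟨id, ?_⟩⟩)
    rintro v w ⟨h3, h4, h5⟩
    omega
  have htop : P (Clique n n) := by
    obtain ⟨G, hG⟩ := h1
    refine hP _ _ hG ⟨⟨id, ?_⟩⟩
    intro v w h3
    exact ⟨h3.ne, v.2, w.2⟩
  have hex : ∃ a, P (Clique n a) := ⟨n, htop⟩
  obtain ⟨ω, hω⟩ : ∃ ω, Nat.find hex = ω + 1 := by
    refine ⟨Nat.find hex - 1, ?_⟩
    have : Nat.find hex ≠ 0 := by
      intro h3
      have h4 := Nat.find_spec hex
      rw [h3] at h4
      exact hbot0 h4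
    omega
  have hPω : P (Clique n (ω + 1)) := hω ▸ Nat.find_spec hex
  have hNω : ¬ P (Clique n ω) := Nat.find_min hex (by omega)
  have hω1 : 1 ≤ ω := by
    rcases Nat.eq_zero_or_pos ω with rfl | h
    · exact absurd hPω hbot
    · exact h
  have hωn : ω + 1 ≤ n := by
    rw [← hω]
    exact Nat.find_min' hex htop
  by_contra hcon
  push Not at hcon
  obtain ⟨hE, hc1, hc2⟩ := hcon
  apply hE
  intro s hs
  by_contra hbad
  have hNE := ne_of_strategy n (by omega) P s hs hbad
  have hNE2 : NE (univ : Finset (EV (Fin n))) (fun S => ¬ HH (famOf P) (toG S)) := by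
    have : (fun S : Finset (EV (Fin n)) => ¬ HH (famOf P) (toG S)) = (fun S => ¬ P (toG S)) := by
      funext S
      rw [HH_famOf hP]
    rw [this]
    exact hNE
  refine core (𝓕 := famOf P) (ω := ω) (Pool.Agent.Y407.EV.t Pool.Agent.Y350.EV.t)
    Pool.Agent.Y705.EV.t Pool.Agent.Y67.EV.Small.t Pool.Agent.Y454.EW.Even.t
    Pool.Agent.Y454.EW.Odd.t Pool.Agent.Y67.EV.Red.t hn hω1 hωn ?_ ?_ ?_ ?_ hNE2
  · rintro F ⟨G, hG, rfl⟩ hcol
    exact hNω (hP _ _ hG (to_clique (by omega) hcol))
  · exact ⟨⟨n, Clique n (ω + 1)⟩, ⟨_, hPω, rfl⟩, clique_colorable (by omega)⟩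
  · rintro ⟨k, rfl, h3, h4, h5⟩
    have h6 : 2 ^ (k + 1) = 2 * 2 ^ k := by rw [pow_succ, mul_comm]
    exact hc1 k h3 (by omega) (by omega) hNω hPω
  · rintro ⟨k, h3, h4, h5, h6⟩
    have h7 : 2 ^ (k + 1) = 2 * 2 ^ k := by rw [pow_succ, mul_comm]
    have h8 : ω = 2 ^ k - 1 := by omega
    refine hc2 k h4 (by omega) (by omega) (h8 ▸ hNω) (h3 ▸ hPω)

end Pool.Agent.Y577.EV.HomClosed
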