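import Pool.Agent.TH410.KV.Iter
import Pool.Agent.H98R2.Nb.GC

set_option autoImplicit false

/-!
Evasiveness of graph properties that are closed under homomorphisms (MP_257582_lc):
definitions and statements of the parts.  Every statement is a `Prop`; a file that proves the
statement `S_x` should contain `theorem t : S_x`.
-/

namespace Pool.Agent.Y577.EV

open Finset Pool.Agent.H98R2.Ev Pool.Agent.TH410.KV
open Pool.Agent.H98R2.Nb (Inv)

/-- some member of the family has a homomorphism to `G` -/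
def HH (𝓕 : Fam) {V : Type} (G : SimpleGraph V) : Prop := ∃ F ∈ 𝓕, Nonempty (F.2 →g G)

/-- the blow-up of a graph on blocks: block `i` has the vertex set `Fin (c i) → ZMod 2`, it is
complete if `R i` and without edges otherwise -/
def gr {B : Type} (c : B → ℕ) (G : SimpleGraph B) (R : B → Prop) :
    SimpleGraph (Σ i, (Fin (c i) → ZMod 2)) where
  Adj a b := G.Adj a.1 b.1 ∨ (a.1 = b.1 ∧ a ≠ b ∧ R a.1)
  symm := ⟨by
    rintro a b (h | ⟨h1, h2, h3⟩)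
    · exact Or.inl h.symm
    · exact Or.inr ⟨h1.symm, h2.symm, h1 ▸ h3⟩⟩
  loopless := ⟨by
    rintro a (h | ⟨_, h2, _⟩)
    · exact G.loopless.irrefl _ h
    · exact h2 rfl⟩

/-- the join of a complete graph on `a` vertices and `G` -/
def jk (a : ℕ) {V : Type} (G : SimpleGraph V) : SimpleGraph (Fin a ⊕ V) where
  Adj x y := x ≠ y ∧ ∀ u v, x = Sum.inr u → y = Sum.inr v → G.Adj u v
  symm := ⟨by
    rintro x y ⟨h1, h2⟩
    exact ⟨h1.symm, fun u v hu hv => (h2 v u hv hu).symm⟩⟩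
  loopless := ⟨fun x h => h.1 rfl⟩

/-- the weight of a block that is complete or not: the type of a complete block with `2 ^ c`
vertices is `(J 2)^[c] xi`, that of a block without edges is `xi` -/
noncomputable def zz (𝓕 : Fam) (c : ℕ) : AA 𝓕 2 :=
  if c = 0 then cl 2 (xi : TY 𝓕) else cl 2 (xi : TY 𝓕) - cl 2 ((J 2)^[c] (xi : TY 𝓕))

/-- EV1: an automorphism of the elementary abelian group of order `2 ^ c` that permutes the non-zero
elements cyclically -/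
def S_gen : Prop := ∀ c : ℕ, ∃ g : (Fin c → ZMod 2) ≃+ (Fin c → ZMod 2),
  ∀ x y : Fin c → ZMod 2, x ≠ 0 → y ≠ 0 → ∃ m : ℕ, (⇑g)^[m] x = y

open Classical in
/-- EV2: the criterion for blocks with `2 ^ (c i)` vertices -/
def S_crit : Prop := ∀ (B : Type) [Fintype B] [DecidableEq B] (c : B → ℕ) (𝓕 : Fam),
  (∀ F ∈ 𝓕, ¬ F.2.Colorable 1) →
  NE (univ : Finset (EV (Σ i, (Fin (c i) → ZMod 2)))) (fun S => ¬ HH 𝓕 (toG S)) →
  (2 : ℤ) ∣ ∑ A : Finset (EV B ⊕ {i // c i ≠ 0}),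
    if ¬ HH 𝓕 (gr c (toG A.toLeft)
        (fun i => ∃ h : c i ≠ 0, (⟨i, h⟩ : {i // c i ≠ 0}) ∈ A.toRight))
      then (-1 : ℤ) ^ A.card else 0

open Classical in
/-- EV3: the signed sum of `S_crit` as a value of the functional -/
def S_count : Prop := ∀ (B : Type) [Fintype B] [DecidableEq B] (c : B → ℕ) (𝓕 : Fam),
  ((∑ A : Finset (EV B ⊕ {i // c i ≠ 0}),
    if ¬ HH 𝓕 (gr c (toG A.toLeft)
        (fun i => ∃ h : c i ≠ 0, (⟨i, h⟩ : {i // c i ≠ 0}) ∈ A.toRight))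
      then (-1 : ℤ) ^ A.card else 0 : ℤ) : ZMod 2) = Lb 𝓕 2 (∏ i, zz 𝓕 (c i))

/-- EV4: polynomial identities: a window of linear relations between the values at powers of `x` -/
def S_window : Prop := ∀ (A : Type) [CommRing A] [CharP A 2] (x : A) (f : A →+ ZMod 2) (n : ℕ),
  (∀ s a b : ℕ, s + 8 * a + 32 * b = n →
    f (x ^ s * (x ^ 2 + x ^ 4 + x ^ 8) ^ a * (x ^ 2 + x ^ 16 + x ^ 32) ^ b) = 0) →
  ∀ k t e : ℕ, n = 112 + 32 * k + t → t + 32 + 2 * k ≤ e → e ≤ t + 60 + 32 * k →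
    e ≡ n [MOD 2] → f (x ^ e) + f (x ^ (e + 8)) + f (x ^ (e + 12)) + f (x ^ (e + 16)) = 0

/-- EV5: a long window of these relations forces the value at `x` to vanish -/
def S_small : Prop := ∀ (A : Type) [CommRing A] [CharP A 2] (x : A) (f : A →+ ZMod 2)
  (n N lo hi : ℕ), 1 ≤ N →
  (∑ k ∈ range (N + 1), (N.choose k : A) * x ^ (2 ^ k) = 0) → 1 ≤ n → f (x ^ n) = 0 →
  lo ≡ n [MOD 2] → 1 ≤ lo → lo + 2 * (2 ^ N - 2) ≤ hi →
  (∀ e : ℕ, lo ≤ e → e ≤ hi → e ≡ n [MOD 2] →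
    f (x ^ e) + f (x ^ (e + 8)) + f (x ^ (e + 12)) + f (x ^ (e + 16)) = 0) →
  f x = 0

/-- EV6: even number of vertices, no member is `n / 2`-colourable -/
def S_even : Prop := ∀ (n : ℕ) (𝓕 : Fam), 2 ≤ n → Even n →
  (∀ F ∈ 𝓕, ¬ F.2.Colorable (n / 2)) → HH 𝓕 (⊤ : SimpleGraph (Fin n)) →
  ¬ NE (univ : Finset (EV (Fin n))) (fun S => ¬ HH 𝓕 (toG S))

/-- EV7: odd number of vertices, no member is `ω`-colourable, `2 n ≤ 3 ω` -/
def S_odd : Prop := ∀ (n ω : ℕ) (𝓕 : Fam), 2 ≤ n → Odd n → 2 * n ≤ 3 * ω →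
  (∀ F ∈ 𝓕, ¬ F.2.Colorable ω) → HH 𝓕 (⊤ : SimpleGraph (Fin n)) →
  ¬ NE (univ : Finset (EV (Fin n))) (fun S => ¬ HH 𝓕 (toG S))

/-- EV8: reduction to the single blocks in the presence of large complete blocks -/
def S_red : Prop := ∀ (𝓕 : Fam) (b K s : ℕ), 1 ≤ b → 2 ≤ s → s ≤ 2 ^ K →
  (∀ F ∈ 𝓕, ¬ F.2.Colorable (2 ^ K * (b - 1) + s)) →
  NN 2 (Sum.elim (fun _ : Fin b => (J 2)^[K] (xi : TY 𝓕)) (fun _ : Fin s => (xi : TY 𝓕))) =
    NN 2 (fun _ : Fin s => (xi : TY {F : Σ k : ℕ, SimpleGraph (Fin k) | HH 𝓕 (jk (2 ^ K * b) F.2)}))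

end Pool.Agent.Y577.EV
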