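import Pool.Agent.Y577.EV.Stm

set_option autoImplicit false
set_option linter.unusedSectionVars false

/-! Values of the functional: homomorphisms and colourings. -/

namespace Pool.Agent.Y577.EV

open Finset Pool.Agent.H98R2.Ev Pool.Agent.TH410.KV

variable {𝓕 : Fam}

/-- complete blocks with `2 ^ (j v)` vertices -/
def tj (𝓕 : Fam) {V : Type} (j : V → ℕ) : V → TY 𝓕 := fun v => (J 2)^[j v] (xi : TY 𝓕)

theorem bad_coloring {V : Type} {j : V → ℕ} {G : SimpleGraph V} (h : Bad (tj 𝓕 j) G) :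
    ∃ (F : 𝓕) (κ : Fin F.1.1 → V) (col : ∀ v, Fin F.1.1 → (Fin (j v) → ZMod 2)),
      (∀ x y, F.1.2.Adj x y → κ x = κ y → col (κ x) x ≠ col (κ x) y) ∧
      ∀ x y, F.1.2.Adj x y → κ x ≠ κ y → G.Adj (κ x) (κ y) := by
  classical
  obtain ⟨F, κ, h1, h2⟩ := h
  have h3 : ∀ v, ∃ col : Fin F.1.1 → (Fin (j v) → ZMod 2),
      ∀ a, (univ.filter (fun x => κ x = v)).filter (fun x => col x = a) ∈ (xi : TY 𝓕).1 F :=
    fun v => (mem_iter 2 (j v) xi F _).1 (h1 v)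
  choose col hcol using h3
  refine ⟨F, κ, col, fun x y hxy hκ heq => ?_, h2⟩
  have h4 := hcol (κ x) (col (κ x) x)
  refine h4 x ?_ y ?_ hxy
  · simp
  · simp [hκ.symm, heq.symm]

/-- total number of colours -/
theorem bad_colorable {V : Type} [Fintype V] [DecidableEq V] {j : V → ℕ} {G : SimpleGraph V}
    (h : Bad (tj 𝓕 j) G) : ∃ F ∈ 𝓕, F.2.Colorable (∑ v, 2 ^ j v) := by
  classical
  obtain ⟨F, κ, col, h1, h2⟩ := bad_coloring h
  refine ⟨F.1, F.2, ?_⟩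
  have hc : Fintype.card (Σ v, (Fin (j v) → ZMod 2)) = ∑ v, 2 ^ j v := by
    rw [Fintype.card_sigma]
    refine Finset.sum_congr rfl fun v _ => ?_
    rw [Fintype.card_fun, ZMod.card, Fintype.card_fin]
  rw [← hc]
  refine (SimpleGraph.Coloring.mk (fun x => (⟨κ x, col (κ x) x⟩ : Σ v, (Fin (j v) → ZMod 2)))
    ?_).colorable
  intro x y hxy heq
  have e1 : κ x = κ y := congrArg Sigma.fst heq
  refine h1 x y hxy e1 ?_
  have e2 : HEq (col (κ x) x) (col (κ y) y) := (Sigma.mk.inj heq).2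
  rw [← e1] at e2
  exact eq_of_heq e2

/-- two non-adjacent blocks can share colours -/
theorem bad_colorable_of_nonadj {V : Type} [Fintype V] [DecidableEq V] {j : V → ℕ}
    {G : SimpleGraph V} (h : Bad (tj 𝓕 j) G) {v w : V} (hvw : v ≠ w) (hn : ¬ G.Adj v w)
    (hj : j w ≤ j v) : ∃ F ∈ 𝓕, F.2.Colorable (∑ u ∈ univ.erase w, 2 ^ j u) := by
  classical
  obtain ⟨F, κ, col, h1, h2⟩ := bad_coloring h
  refine ⟨F.1, F.2, ?_⟩
  have hc : Fintype.card (Σ u : {u // u ≠ w}, (Fin (j u.1) → ZMod 2)) =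
      ∑ u ∈ univ.erase w, 2 ^ j u := by
    rw [Fintype.card_sigma]
    rw [← Finset.sum_subtype (univ.erase w) (p := fun u => u ≠ w) (by simp)
      (fun u => Fintype.card (Fin (j u) → ZMod 2))]
    refine Finset.sum_congr rfl fun u _ => ?_
    rw [Fintype.card_fun, ZMod.card, Fintype.card_fin]
  rw [← hc]
  obtain ⟨ι⟩ : Nonempty ((Fin (j w) → ZMod 2) ↪ (Fin (j v) → ZMod 2)) := by
    apply Function.Embedding.nonempty_of_card_le
    rw [Fintype.card_fun, Fintype.card_fun, ZMod.card, Fintype.card_fin, Fintype.card_fin]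
    exact Nat.pow_le_pow_right (by norm_num) hj
  let φ : (Σ u, (Fin (j u) → ZMod 2)) → (Σ u : {u // u ≠ w}, (Fin (j u.1) → ZMod 2)) := fun p =>
    if hp : p.1 = w then ⟨⟨v, hvw⟩, ι (hp ▸ p.2)⟩ else ⟨⟨p.1, hp⟩, p.2⟩
  have hφ : ∀ p q : Σ u, (Fin (j u) → ZMod 2), φ p = φ q → p = q ∨ (p.1 = w ∧ q.1 = v) ∨
      (p.1 = v ∧ q.1 = w) := by
    rintro ⟨a, s⟩ ⟨b, r⟩ he
    simp only [φ] at he
    by_cases ha : a = w <;> by_cases hb : b = w
    · subst ha
      subst hb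
      rw [dif_pos rfl, dif_pos rfl] at he
      have h5 : s = r := ι.injective (eq_of_heq (Sigma.mk.inj he).2)
      left
      rw [h5]
    · rw [dif_pos ha, dif_neg hb] at he
      have h3 := congrArg Subtype.val (Sigma.mk.inj he).1
      exact Or.inr (Or.inl ⟨ha, h3.symm⟩)
    · rw [dif_neg ha, dif_pos hb] at he
      have h3 := congrArg Subtype.val (Sigma.mk.inj he).1
      exact Or.inr (Or.inr ⟨h3, hb⟩)
    · rw [dif_neg ha, dif_neg hb] at he
      have h3 := congrArg Subtype.val (Sigma.mk.inj he).1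
      change a = b at h3
      subst h3
      have := eq_of_heq (Sigma.mk.inj he).2
      left
      rw [this]
  refine (SimpleGraph.Coloring.mk
    (fun x => φ (⟨κ x, col (κ x) x⟩ : Σ v, (Fin (j v) → ZMod 2))) ?_).colorable
  intro x y hxy heq
  rcases hφ _ _ heq with h3 | ⟨h3, h4⟩ | ⟨h3, h4⟩
  · have e1 : κ x = κ y := congrArg Sigma.fst h3
    refine h1 x y hxy e1 ?_
    have e2 : HEq (col (κ x) x) (col (κ y) y) := (Sigma.mk.inj h3).2
    rw [← e1] at e2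
    exact eq_of_heq e2
  · change κ x = w at h3
    change κ y = v at h4
    have h5 := h2 x y hxy (by rw [h3, h4]; exact hvw.symm)
    rw [h3, h4] at h5
    exact hn h5.symm
  · change κ x = v at h3
    change κ y = w at h4
    have h5 := h2 x y hxy (by rw [h3, h4]; exact hvw)
    rw [h3, h4] at h5
    exact hn h5

theorem sig_eq {V : Type} {j : V → ℕ} (p : Σ v, (Fin (j v) → ZMod 2)) (v : V)
    (a : Fin (j v) → ZMod 2) (h : p.1 = v) (h2 : h ▸ p.2 = a) : p = ⟨v, a⟩ := by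
  subst h
  subst h2
  rfl

/-- in a complete graph of blocks a colouring fits -/
theorem bad_top {V : Type} [Fintype V] [DecidableEq V] {j : V → ℕ} {F : Σ k : ℕ, SimpleGraph (Fin k)}
    (hF : F ∈ 𝓕) (hc : F.2.Colorable (∑ v, 2 ^ j v)) : Bad (tj 𝓕 j) (⊤ : SimpleGraph V) := by
  classical
  have hcd : Fintype.card (Σ v, (Fin (j v) → ZMod 2)) = ∑ v, 2 ^ j v := by
    rw [Fintype.card_sigma]
    refine Finset.sum_congr rfl fun v _ => ?_
    rw [Fintype.card_fun, ZMod.card, Fintype.card_fin]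
  obtain ⟨C⟩ := hc
  let e : (Σ v, (Fin (j v) → ZMod 2)) ≃ Fin (∑ v, 2 ^ j v) := Fintype.equivFinOfCardEq hcd
  let D : Fin F.1 → Σ v, (Fin (j v) → ZMod 2) := fun x => e.symm (C x)
  have hD : ∀ x y, F.2.Adj x y → D x ≠ D y := by
    intro x y hxy h
    exact C.valid hxy (e.symm.injective h)
  refine ⟨⟨F, hF⟩, fun x => (D x).1, fun v => ?_, fun x y hxy hne => ?_⟩
  · change _ ∈ ((J 2)^[j v] (xi : TY 𝓕)).1 ⟨F, hF⟩
    rw [mem_iter]
    refine ⟨fun x => if h : (D x).1 = v then h ▸ (D x).2 else 0, fun a => ?_⟩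
    intro x hx y hy hxy
    simp only [mem_filter, mem_univ, true_and] at hx hy
    obtain ⟨hx1, hx2⟩ := hx
    obtain ⟨hy1, hy2⟩ := hy
    rw [dif_pos hx1] at hx2
    rw [dif_pos hy1] at hy2
    apply hD x y hxy
    rw [sig_eq (D x) v a hx1 hx2, sig_eq (D y) v a hy1 hy2]
  · rw [SimpleGraph.top_adj]
    exact hne

section NN

theorem neg_one_pow_two (n : ℕ) : (-1 : ZMod 2) ^ n = 1 := by
  have : (-1 : ZMod 2) = 1 := by decide
  rw [this, one_pow]

theorem card_EV_pos {V : Type} [Fintype V] [DecidableEq V] (hV : 2 ≤ Fintype.card V) :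
    0 < Fintype.card (EV V) := by
  obtain ⟨a, b, hab⟩ := Fintype.one_lt_card_iff.1 (lt_of_lt_of_le (by norm_num) hV)
  rw [Fintype.card_pos_iff]
  exact ⟨⟨s(a, b), fun h => hab (Sym2.mk_isDiag_iff.1 h)⟩⟩

theorem sum_one {V : Type} [Fintype V] [DecidableEq V] (hV : 2 ≤ Fintype.card V) :
    ∑ _S : Finset (EV V), (1 : ZMod 2) = 0 := by
  rw [Finset.sum_const, card_univ, Fintype.card_finset, nsmul_eq_mul, mul_one, Nat.cast_pow]
  have : ((2 : ℕ) : ZMod 2) = 0 := by decide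
  rw [this]
  exact zero_pow (card_EV_pos hV).ne'

theorem NN_zero {V : Type} [Fintype V] [DecidableEq V] (hV : 2 ≤ Fintype.card V)
    (τ : V → TY 𝓕) (h : ∀ S : Finset (EV V), ¬ Bad τ (toG S)) : NN 2 τ = 0 := by
  unfold NN
  rw [← sum_one hV]
  refine Finset.sum_congr rfl fun S _ => ?_
  unfold ind
  rw [if_neg (h S), neg_one_pow_two, mul_one]

theorem NN_one {V : Type} [Fintype V] [DecidableEq V] (hV : 2 ≤ Fintype.card V)
    (τ : V → TY 𝓕) (h : ∀ S : Finset (EV V), Bad τ (toG S) ↔ S = univ) : NN 2 τ = 1 := by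
  classical
  have h1 : NN 2 τ = ∑ S : Finset (EV V), (1 + if S = univ then (1 : ZMod 2) else 0) := by
    unfold NN
    refine Finset.sum_congr rfl fun S _ => ?_
    unfold ind
    rw [neg_one_pow_two, mul_one]
    by_cases hS : S = univ
    · rw [if_pos ((h S).2 hS), if_pos hS]
      decide
    · rw [if_neg (fun h' => hS ((h S).1 h')), if_neg hS, add_zero]
  rw [h1, Finset.sum_add_distrib, sum_one hV, zero_add, Finset.sum_ite_eq' univ univ,
    if_pos (mem_univ _)]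

theorem toG_univ {V : Type} [Fintype V] [DecidableEq V] :
    toG (univ : Finset (EV V)) = ⊤ := by
  ext a b
  rw [toG_adj, SimpleGraph.top_adj]
  constructor
  · rintro ⟨h, _⟩ hab
    exact h (Sym2.mk_isDiag_iff.2 hab)
  · intro h
    exact ⟨fun h' => h (Sym2.mk_isDiag_iff.1 h'), mem_univ _⟩

theorem exists_nonadj {V : Type} [Fintype V] [DecidableEq V] {S : Finset (EV V)}
    (h : S ≠ univ) : ∃ v w, v ≠ w ∧ ¬ (toG S).Adj v w := by
  by_contra hcon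
  push Not at hcon
  apply h
  ext e
  simp only [mem_univ, iff_true]
  obtain ⟨e, he⟩ := e
  induction e using Sym2.ind with
  | _ a b =>
    have hab : a ≠ b := fun h => he (Sym2.mk_isDiag_iff.2 h)
    obtain ⟨h1, h2⟩ := (toG_adj S a b).1 (hcon a b hab)
    exact h2

/-- equal weights: exactly the complete graph is bad -/
theorem NN_const {ω k m : ℕ} (h0 : ∀ F ∈ 𝓕, ¬ F.2.Colorable ω)
    (h1 : ∃ F ∈ 𝓕, F.2.Colorable (ω + 1)) (hm : 2 ≤ m) (h2 : 2 ^ k * (m - 1) ≤ ω)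
    (h3 : ω + 1 ≤ 2 ^ k * m) : NN 2 (tj 𝓕 (fun _ : Fin m => k)) = 1 := by
  classical
  refine NN_one (by rw [Fintype.card_fin]; exact hm) _ fun S => ⟨fun hb => ?_, fun hS => ?_⟩
  · by_contra hS
    obtain ⟨v, w, hvw, hn⟩ := exists_nonadj hS
    obtain ⟨F, hF, hc⟩ := bad_colorable_of_nonadj hb hvw hn le_rfl
    refine h0 F hF (hc.mono ?_)
    rw [Finset.sum_const, card_erase_of_mem (mem_univ _), card_univ, Fintype.card_fin,
      smul_eq_mul, mul_comm]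
    exact h2
  · rw [hS, toG_univ]
    obtain ⟨F, hF, hc⟩ := h1
    refine bad_top hF (hc.mono ?_)
    rw [Finset.sum_const, card_univ, Fintype.card_fin, smul_eq_mul, mul_comm]
    exact h3

theorem NN_small {V : Type} [Fintype V] [DecidableEq V] (hV : 2 ≤ Fintype.card V) {ω : ℕ}
    (h0 : ∀ F ∈ 𝓕, ¬ F.2.Colorable ω) {j : V → ℕ} (hj : ∑ v, 2 ^ j v ≤ ω) :
    NN 2 (tj 𝓕 j) = 0 := by
  refine NN_zero hV _ fun S hb => ?_
  obtain ⟨F, hF, hc⟩ := bad_colorable hb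
  exact h0 F hF (hc.mono hj)

end NN

section U

variable (𝓕)

/-- the class of a single block -/
noncomputable abbrev X0 : AA 𝓕 2 := cl 2 (xi : TY 𝓕)

/-- the class of a complete block with `2 ^ j` vertices -/
noncomputable def Xc (j : ℕ) : AA 𝓕 2 := cl 2 ((J 2)^[j] (xi : TY 𝓕))

variable {𝓕}

theorem Xc_zero : Xc 𝓕 0 = X0 𝓕 := rfl

theorem Lb_Xc {V : Type} [Fintype V] [DecidableEq V] (j : V → ℕ) :
    Lb 𝓕 2 (∏ v, Xc 𝓕 (j v)) = NN 2 (tj 𝓕 j) := Lb_prod 2 (tj 𝓕 j)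

theorem Lb_Xc_pow (k m : ℕ) : Lb 𝓕 2 (Xc 𝓕 k ^ m) = NN 2 (tj 𝓕 (fun _ : Fin m => k)) := by
  rw [← Lb_Xc]
  simp

theorem u_one (h : ∀ F ∈ 𝓕, ¬ F.2.Colorable 1) : Lb 𝓕 2 (X0 𝓕) = 1 := by
  have : NeZero 2 := ⟨by norm_num⟩
  refine Lb_cl 2 _ fun F hF => ?_
  have h2 : univ ∈ ((J 2)^[0] (xi : TY 𝓕)).1 F := hF
  rw [xi_iter, pow_zero] at h2
  exact h F.1 F.2 h2

theorem u_zero {ω M : ℕ} (h0 : ∀ F ∈ 𝓕, ¬ F.2.Colorable ω) (hM : 2 ≤ M) (hω : M ≤ ω) :
    Lb 𝓕 2 (X0 𝓕 ^ M) = 0 := by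
  have h := Lb_Xc_pow (𝓕 := 𝓕) 0 M
  rw [Xc_zero] at h
  rw [h]
  refine NN_small (by rw [Fintype.card_fin]; exact hM) h0 ?_
  simpa using hω

theorem u_succ {ω : ℕ} (hω : 1 ≤ ω) (h0 : ∀ F ∈ 𝓕, ¬ F.2.Colorable ω)
    (h1 : ∃ F ∈ 𝓕, F.2.Colorable (ω + 1)) : Lb 𝓕 2 (X0 𝓕 ^ (ω + 1)) = 1 := by
  have h := Lb_Xc_pow (𝓕 := 𝓕) 0 (ω + 1)
  rw [Xc_zero] at h
  rw [h]
  exact NN_const h0 h1 (by omega) (by simp) (by simp)

end U

end Pool.Agent.Y577.EV
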